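import Pool.Agent.H76.ND.Targets

/-!
# Common facts on the levels and the allowances
-/

namespace Pool.Agent.H4.ND

open Pool.Agent.H99.NS Pool.Agent.H22.LPP Pool.Agent.H95.INS Pool.Agent.H76.ND

theorem lv_pos (i : ℕ) : 0 < lv i := by unfold lv; positivity

theorem lv_succ {i : ℕ} (hi : 1 ≤ i) : lv (i + 1) = 64 * lv i := by
  obtain ⟨j, rfl⟩ : ∃ j, i = j + 1 := ⟨i - 1, by omega⟩
  unfold lv
  simp only [Nat.add_sub_cancel]
  rw [pow_succ]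
  ring

theorem lv_two {i : ℕ} (hi : 1 ≤ i) : 2 * lv i = 64 ^ i := by
  obtain ⟨j, rfl⟩ : ∃ j, i = j + 1 := ⟨i - 1, by omega⟩
  unfold lv
  simp only [Nat.add_sub_cancel]
  rw [pow_succ]
  ring

theorem lv_real {i : ℕ} (hi : 1 ≤ i) : ((lv i : ℤ) : ℝ) = 64 ^ i / 2 := by
  have h := lv_two hi
  have h2 : (2 : ℝ) * ((lv i : ℤ) : ℝ) = 64 ^ i := by exact_mod_cast h
  linarith

theorem lv_real_succ {i : ℕ} (hi : 1 ≤ i) : ((lv (i + 1) : ℤ) : ℝ) = 32 * 64 ^ i := by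
  rw [lv_succ hi, Int.cast_mul, lv_real hi]
  push_cast
  ring

theorem lv_even (i : ℕ) : Even (lv i) := by
  unfold lv
  exact ⟨16 * 64 ^ (i - 1), by ring⟩

theorem lv_ge (i : ℕ) : 32 ≤ lv i := by
  unfold lv
  have : (1 : ℤ) ≤ 64 ^ (i - 1) := one_le_pow₀ (by norm_num)
  linarith

theorem lv_mono {i j : ℕ} (h : i ≤ j) : lv i ≤ lv j := by
  unfold lv
  have : (64 : ℤ) ^ (i - 1) ≤ 64 ^ (j - 1) := pow_le_pow_right₀ (by norm_num) (by omega)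
  linarith

theorem al_nonneg {K0 D : ℝ} {k i : ℕ} (h : 0 ≤ K0) (hD : 0 ≤ D) : 0 ≤ al K0 k i D := by
  unfold al; positivity

theorem al_mono {K0 D D' : ℝ} {k i : ℕ} (h : 0 ≤ K0) (hD : D ≤ D') :
    al K0 k i D ≤ al K0 k i D' := by
  unfold al
  gcongr

theorem ds_le {k i : ℕ} (h : i ≤ k) : ds k i = k - i := by unfold ds; omega

theorem ds_ge {k i : ℕ} (h : k ≤ i) : ds k i = i - k := by unfold ds; omega

/-- The powers of the base are at least one. -/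
theorem one_le_b (n : ℕ) : (1 : ℝ) ≤ (101 / 100) ^ n := one_le_pow₀ (by norm_num)

/-- `Xc 16^i ≤ 64^i / 4`. -/
theorem Xc_le {Xc : ℤ} {a i : ℕ} (h : 4 * Xc ≤ 4 ^ a) (hai : a ≤ i) :
    4 * (Xc * 16 ^ i) ≤ (64 : ℤ) ^ i := by
  have h1 : (4 : ℤ) ^ a ≤ 4 ^ i := pow_le_pow_right₀ (by norm_num) hai
  have h2 : (64 : ℤ) ^ i = 4 ^ i * 16 ^ i := by rw [← mul_pow]; norm_num
  rw [h2]
  have h3 : (0 : ℤ) < 16 ^ i := by positivity
  nlinarith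

end Pool.Agent.H4.ND
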