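import Pool.Agent.H4.ND.WB

/-!
# Module D3A: badness of a smaller scale is seen in the box of a good scale
-/

namespace Pool.Agent.H4.ND

open Pool.Agent.H99.NS Pool.Agent.H22.LPP Pool.Agent.H95.INS Pool.Agent.H76.ND

theorem ul_of_ge (h_ALM : T_ALM) {P : PS} {q K0 : ℝ} {j k i : ℕ} {s t : ℤ} (hK : 0 ≤ K0)
    (hjk : j < k) (hki : k ≤ i) (h : UL P q K0 k i s t) : UL P q K0 j i s t := by
  intro s' t' g h1 h2 h3 h4
  have h5 := h s' t' g h1 h2 h3 h4
  have h6 := (h_ALM K0 (max |(g s' : ℝ)| |(g t' : ℝ)|) j k i hK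
    (le_max_of_le_left (abs_nonneg _)) hjk).1 hki
  linarith

theorem ll_of_ge (h_ALM : T_ALM) {P : PS} {q K0 : ℝ} {Xc : ℤ} {j k i : ℕ} {s t : ℤ} (hK : 0 ≤ K0)
    (hXc : 0 ≤ Xc) (hjk : j < k) (hki : k ≤ i) (h : LL P q K0 Xc k i s t) :
    LL P q K0 Xc j i s t := by
  intro x y h1 h2 h3 h4
  have e1 : max k i = i := max_eq_right hki
  have e2 : max j i = i := max_eq_right (by omega)
  rw [e2] at h1 h2
  have h5 := h x y (by rwa [e1]) (by rwa [e1]) h3 h4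
  have h6 := (h_ALM K0 (max |(x : ℝ)| |(y : ℝ)|) j k i hK
    (le_max_of_le_left (abs_nonneg _)) hjk).1 hki
  linarith

theorem wt_cut {ω : Env} {R s t : ℤ} {g : ℤ → ℤ} (h : ∀ r, s < r → r ≤ t → |g r| < R) :
    wt (cutE R ω) s t g = wt ω s t g := by
  refine wt_congr fun r h1 h2 => ?_
  unfold cutE
  rw [if_pos (h r h1 h2)]

theorem T_cut (ω : Env) (R : ℤ) (u v : Site) : T (cutE R ω) u v ≤ T ω u v := by
  refine T_mono fun x _ => ?_
  unfold cutE
  split_ifs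
  · exact le_rfl
  · exact Nat.zero_le _

/-- The excursion far away is expensive. -/
theorem far_real {q K0 V U A D τ1 τ2 dl D1 D2 D3 c al0 : ℝ} (hq : 0 < sg q) (hK : 1 ≤ K0)
    (hV : 0 < V) (hU : 0 < U) (hA : 4 ≤ A) (hAK : 256 * K0 ≤ sg q * A) (hD : A * V ≤ D)
    (h1 : 0 ≤ τ1) (h2 : 0 ≤ τ2) (hdl : 0 < dl) (hτ : τ1 + τ2 + 2 * dl ≤ 32 * U)
    (hD1 : D - V ≤ D1) (hD2 : D - V ≤ D2) (hD3 : |D3| ≤ 2 * V)
    (hc : al0 ≤ K0 * c * (1 + D / V)) (hcV : 0 < c) (hUc : c * U ≤ V ^ 2) :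
    -(sg q / 2 * (D1 ^ 2 / (τ1 + dl))) - sg q / 2 * (D2 ^ 2 / (τ2 + dl)) + 2 * al0 ≤
      -(sg q / 2 * (D3 ^ 2 / (τ1 + τ2 + dl))) := by
  obtain ⟨d, hd⟩ : ∃ d, d = D / V := ⟨_, rfl⟩
  have hDd : D = d * V := by rw [hd, div_mul_cancel₀ _ hV.ne']
  have hAd : A ≤ d := by
    rw [hd, le_div_iff₀ hV]; exact hD
  have hd4 : 4 ≤ d := hA.trans hAd
  obtain ⟨S, hS⟩ : ∃ S, S = τ1 + τ2 + 2 * dl := ⟨_, rfl⟩
  have hS0 : 0 < S := by rw [hS]; linarith
  rw [← hS] at hτ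
  have t1 := titu (p := D1) (r := D2) (P := τ1 + dl) (Q := τ2 + dl) (by linarith) (by linarith)
  have e1 : τ1 + dl + (τ2 + dl) = S := by rw [hS]; ring
  rw [e1] at t1
  have t2 : (2 * (D - V)) ^ 2 / S ≤ (D1 + D2) ^ 2 / S := by
    have : (2 * (D - V)) ^ 2 ≤ (D1 + D2) ^ 2 := by
      have : 0 ≤ D - V := by nlinarith
      exact pow_le_pow_left₀ (by linarith) (by linarith) 2
    gcongr
  have t3 : D3 ^ 2 / (τ1 + τ2 + dl) ≤ 8 * V ^ 2 / S := by
    rw [div_le_div_iff₀ (by linarith) hS0]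
    have h3 : D3 ^ 2 ≤ 4 * V ^ 2 := by
      rw [← sq_abs]
      nlinarith [abs_nonneg D3]
    have h4 : S ≤ 2 * (τ1 + τ2 + dl) := by rw [hS]; linarith
    calc D3 ^ 2 * S ≤ 4 * V ^ 2 * S := mul_le_mul_of_nonneg_right h3 hS0.le
      _ ≤ 4 * V ^ 2 * (2 * (τ1 + τ2 + dl)) := mul_le_mul_of_nonneg_left h4 (by positivity)
      _ = 8 * V ^ 2 * (τ1 + τ2 + dl) := by ring
  -- main comparison
  have t4 : 2 * al0 ≤ sg q / 2 * ((2 * (D - V)) ^ 2 / S - 8 * V ^ 2 / S) := by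
    have e2 : (2 * (D - V)) ^ 2 / S - 8 * V ^ 2 / S = 4 * V ^ 2 * ((d - 1) ^ 2 - 2) / S := by
      rw [hDd]; ring
    rw [e2]
    have h5 : d ^ 2 / 4 ≤ (d - 1) ^ 2 - 2 := by nlinarith
    have h6 : 4 * V ^ 2 * (d ^ 2 / 4) / (32 * U) ≤ 4 * V ^ 2 * ((d - 1) ^ 2 - 2) / S := by
      have h7 : 0 ≤ (d - 1) ^ 2 - 2 := by nlinarith
      gcongr
    have h8 : c * d ^ 2 / 32 ≤ 4 * V ^ 2 * (d ^ 2 / 4) / (32 * U) := by
      rw [div_le_div_iff₀ (by norm_num) (by positivity)]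
      have := mul_le_mul_of_nonneg_right hUc (show 0 ≤ d ^ 2 * 32 by positivity)
      nlinarith
    have h9 := mul_le_mul_of_nonneg_left (h8.trans h6) (show 0 ≤ sg q / 2 by linarith)
    refine le_trans ?_ h9
    have h10 : 2 * al0 ≤ 2 * (K0 * c * (1 + d)) := by rw [hd]; linarith
    refine h10.trans ?_
    have h11 : 256 * K0 ≤ sg q * d := hAK.trans (mul_le_mul_of_nonneg_left hAd hq.le)
    have h12 : K0 * (1 + d) ≤ sg q * d ^ 2 / 128 := by nlinarith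
    nlinarith [mul_le_mul_of_nonneg_left h12 hcV.le]
  have t5 := mul_le_mul_of_nonneg_left (t2.trans t1) (show 0 ≤ sg q / 2 by linarith)
  have t6 := mul_le_mul_of_nonneg_left t3 (show 0 ≤ sg q / 2 by linarith)
  rw [mul_sub] at t4
  rw [mul_add] at t5
  linarith

theorem ul_of_lt (h_ALM : T_ALM) {ω : Env} {q K0 : ℝ} {A : ℤ} {j k i : ℕ} {s t : ℤ}
    (hq : 0 < sg q) (hK : 1 ≤ K0) (hjk : j < k) (hik : i < k) (hA : 4 ≤ A)
    (hAK : 256 * K0 ≤ sg q * A) (hst : ((t - s : ℤ) : ℝ) ≤ 63 / 2 * 64 ^ i)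
    (h : UL (fwd ω) q K0 k i s t) (hV : ¬ VU q K0 (A * 16 ^ k) (16 ^ k) j i s t ω) :
    UL (fwd ω) q K0 j i s t := by
  intro s' t' g h1 h2 h3 h4
  have hK0 : 0 ≤ K0 := by linarith
  have hM0 : 0 ≤ max |(g s' : ℝ)| |(g t' : ℝ)| := le_max_of_le_left (abs_nonneg _)
  by_cases hM : (16 : ℝ) ^ k ≤ max |(g s' : ℝ)| |(g t' : ℝ)|
  · have h5 := h s' t' g h1 h2 h3 h4
    have h6 := (h_ALM K0 _ j k i hK0 hM0 hjk).2 hik hM
    linarith
  · push Not at hM
    have hM1 : |(g s' : ℝ)| < 16 ^ k := lt_of_le_of_lt (le_max_left _ _) hM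
    have hM2 : |(g t' : ℝ)| < 16 ^ k := lt_of_le_of_lt (le_max_right _ _) hM
    have hM1' : |g s'| < 16 ^ k := by exact_mod_cast hM1
    have hM2' : |g t'| < 16 ^ k := by exact_mod_cast hM2
    by_cases hfar : ∀ r, s' < r → r ≤ t' → |g r| < A * 16 ^ k
    · have h5 : wt (cutE (A * 16 ^ k) ω) s' t' g = wt ω s' t' g := wt_cut hfar
      by_contra hcon
      apply hV
      refine ⟨s', t', g, h1, h2, h3, h4, hM1', hM2', ?_⟩
      rw [h5]
      push Not at hcon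
      exact hcon
    · push Not at hfar
      obtain ⟨r, hr1, hr2, hr3⟩ := hfar
      have hr3' : (A : ℝ) * 16 ^ k ≤ |(g r : ℝ)| := by exact_mod_cast hr3
      have f1 := h s' r g h1 hr1.le (by linarith) (fun x a b => h4 x a (by linarith))
      have f2 := h r t' g (by linarith) hr2 h3 (fun x a b => h4 x (by linarith) b)
      have hadd := (fwd ω).add s' r t' g hr1.le hr2
      have h16 : (0 : ℝ) < 16 ^ k := by positivity
      have hAr : (4 : ℝ) ≤ A := by exact_mod_cast hA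
      have hrbig : (16 : ℝ) ^ k ≤ |(g r : ℝ)| := by nlinarith
      have m1 : max |(g s' : ℝ)| |(g r : ℝ)| = |(g r : ℝ)| := max_eq_right (by linarith)
      have m2 : max |(g r : ℝ)| |(g t' : ℝ)| = |(g r : ℝ)| := max_eq_left (by linarith)
      rw [m1] at f1
      rw [m2] at f2
      unfold sp at f1 f2 ⊢
      rw [← sq_abs ((g r - g s' : ℤ) : ℝ)] at f1
      rw [← sq_abs ((g t' - g r : ℤ) : ℝ)] at f2
      have hal0 := al_nonneg (K0 := K0) (k := j) (i := i) hK0 hM0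
      have hτ1 : (0 : ℝ) ≤ ((r - s' : ℤ) : ℝ) := by exact_mod_cast (by linarith : (0 : ℤ) ≤ r - s')
      have hτ2 : (0 : ℝ) ≤ ((t' - r : ℤ) : ℝ) := by exact_mod_cast (by linarith : (0 : ℤ) ≤ t' - r)
      have hτ3 : ((r - s' : ℤ) : ℝ) + ((t' - r : ℤ) : ℝ) ≤ ((t - s : ℤ) : ℝ) := by
        have : (r - s') + (t' - r) ≤ t - s := by linarith
        exact_mod_cast this
      have h64 : (0 : ℝ) < 64 ^ i := by positivity
      have hb1 : |(g r : ℝ)| - 16 ^ k ≤ |((g r - g s' : ℤ) : ℝ)| := by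
        have := abs_sub_abs_le_abs_sub (g r : ℝ) (g s')
        rw [Int.cast_sub]
        linarith
      have hb2 : |(g r : ℝ)| - 16 ^ k ≤ |((g t' - g r : ℤ) : ℝ)| := by
        have := abs_sub_abs_le_abs_sub (g r : ℝ) (g t')
        rw [Int.cast_sub, abs_sub_comm]
        linarith
      have hb3 : |((g t' - g s' : ℤ) : ℝ)| ≤ 2 * 16 ^ k := by
        have := abs_sub (g t' : ℝ) (g s')
        rw [Int.cast_sub]
        linarith
      have hUc : ((101 : ℝ) / 100) ^ (k - i) * 4 ^ i * 64 ^ i ≤ (16 ^ k) ^ 2 := by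
        have e1 : ((16 : ℝ) ^ k) ^ 2 = 256 ^ (k - i) * 4 ^ i * 64 ^ i := by
          have e2 : ((16 : ℝ) ^ k) ^ 2 = 256 ^ k := by rw [← pow_mul, mul_comm, pow_mul]; norm_num
          have e3 : (256 : ℝ) ^ k = 256 ^ (k - i) * 256 ^ i := by
            rw [← pow_add]; congr 1; omega
          have e4 : (256 : ℝ) ^ i = 4 ^ i * 64 ^ i := by rw [← mul_pow]; norm_num
          rw [e2, e3, e4]; ring
        rw [e1]
        gcongr
        norm_num
      have hfr := far_real (q := q) (K0 := K0) (V := 16 ^ k) (U := 64 ^ i) (A := A)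
        (D := |(g r : ℝ)|) (τ1 := ((r - s' : ℤ) : ℝ)) (τ2 := ((t' - r : ℤ) : ℝ))
        (dl := 64 ^ i / 1000) (D1 := |((g r - g s' : ℤ) : ℝ)|) (D2 := |((g t' - g r : ℤ) : ℝ)|)
        (D3 := ((g t' - g s' : ℤ) : ℝ)) (c := (101 / 100) ^ (k - i) * 4 ^ i)
        (al0 := al K0 k i |(g r : ℝ)|) hq hK h16 h64 hAr hAK hr3' hτ1 hτ2 (by positivity)
        (by linarith) hb1 hb2 hb3 (by
          unfold al
          rw [ds_le hik.le, max_eq_left hik.le]
          exact le_of_eq (by ring)) (by positivity) hUc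
      have e1 : ((t' - s' : ℤ) : ℝ) = ((r - s' : ℤ) : ℝ) + ((t' - r : ℤ) : ℝ) := by
        push_cast; ring
      rw [hadd, e1]
      have e2 : sg q / 2 * |((g r - g s' : ℤ) : ℝ)| ^ 2 / (((r - s' : ℤ) : ℝ) + 64 ^ i / 1000) =
        sg q / 2 * (|((g r - g s' : ℤ) : ℝ)| ^ 2 / (((r - s' : ℤ) : ℝ) + 64 ^ i / 1000)) := by ring
      have e3 : sg q / 2 * |((g t' - g r : ℤ) : ℝ)| ^ 2 / (((t' - r : ℤ) : ℝ) + 64 ^ i / 1000) =
        sg q / 2 * (|((g t' - g r : ℤ) : ℝ)| ^ 2 / (((t' - r : ℤ) : ℝ) + 64 ^ i / 1000)) := by ring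
      have e4 : sg q / 2 * ((g t' - g s' : ℤ) : ℝ) ^ 2 /
          (((r - s' : ℤ) : ℝ) + ((t' - r : ℤ) : ℝ) + 64 ^ i / 1000) =
        sg q / 2 * (((g t' - g s' : ℤ) : ℝ) ^ 2 /
          (((r - s' : ℤ) : ℝ) + ((t' - r : ℤ) : ℝ) + 64 ^ i / 1000)) := by ring
      rw [e2] at f1
      rw [e3] at f2
      rw [e4, mul_add]
      linarith

theorem ll_of_lt (h_ALM : T_ALM) {ω : Env} {q K0 : ℝ} {Xc R : ℤ} {j k i : ℕ} {s t : ℤ}
    (hK : 0 ≤ K0) (hXc : 0 ≤ Xc) (hjk : j < k) (hik : i < k)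
    (h : LL (fwd ω) q K0 Xc k i s t) (hV : ¬ VL q K0 Xc R (16 ^ k) j i s t ω) :
    LL (fwd ω) q K0 Xc j i s t := by
  intro x y h1 h2 h3 h4
  have hM0 : 0 ≤ max |(x : ℝ)| |(y : ℝ)| := le_max_of_le_left (abs_nonneg _)
  by_cases hM : (16 : ℝ) ^ k ≤ max |(x : ℝ)| |(y : ℝ)|
  · have hm : (16 : ℤ) ^ max j i ≤ 16 ^ max k i :=
      pow_le_pow_right₀ (by norm_num) (max_le_max hjk.le le_rfl)
    have hm' := mul_le_mul_of_nonneg_left hm hXc
    have h5 := h x y (h1.trans hm') (h2.trans hm') h3 h4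
    have h6 := (h_ALM K0 _ j k i hK hM0 hjk).2 hik hM
    linarith
  · push Not at hM
    have hM1 : |(x : ℝ)| < 16 ^ k := lt_of_le_of_lt (le_max_left _ _) hM
    have hM2 : |(y : ℝ)| < 16 ^ k := lt_of_le_of_lt (le_max_right _ _) hM
    by_contra hcon
    apply hV
    refine ⟨x, y, by exact_mod_cast hM1, by exact_mod_cast hM2, h3, h4, ?_⟩
    push Not at hcon
    exact lt_of_le_of_lt (T_cut ω R _ _) hcon

theorem pf_D3A (h_ALM : T_ALM) : T_D3A := by
  intro q K0 Xc A a I j k ω hq0 hq1 hK ha haj hjk hkI hA hAK hAX hG hnG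
  have hsg := sg_pos hq0 hq1
  have hK0 : 0 ≤ K0 := by linarith
  have hXc : 0 ≤ Xc := by linarith
  unfold GN at hnG
  push Not at hnG
  obtain ⟨i, hai, hiI, hN⟩ := hnG
  have hNk := hG i hai hiI
  rcases lt_or_ge i k with hik | hki
  · refine ⟨i, hai, hik, ?_⟩
    by_contra hV
    unfold VV at hV
    push Not at hV
    obtain ⟨v1, v2, v3, v4, v5⟩ := hV
    apply hN
    have hi1 : 1 ≤ i := by omega
    have hst : ((-lv i - -lv (i + 1) : ℤ) : ℝ) ≤ 63 / 2 * 64 ^ i := by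
      push_cast
      rw [lv_real hi1, lv_real_succ hi1]
      linarith
    have hst' : ((lv (i + 1) - lv i : ℤ) : ℝ) ≤ 63 / 2 * 64 ^ i := by
      push_cast
      rw [lv_real hi1, lv_real_succ hi1]
      linarith
    refine ⟨ul_of_lt h_ALM hsg hK hjk hik hA hAK hst hNk.um v1,
      ul_of_lt h_ALM hsg hK hjk hik hA hAK hst' hNk.up v2,
      ll_of_lt h_ALM hK0 hXc hjk hik hNk.lm v3,
      ll_of_lt h_ALM hK0 hXc hjk hik hNk.lp v4, ?_, ?_, ?_, ?_⟩
    · intro hia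
      subst hia
      have hst2 : ((lv i - -lv i : ℤ) : ℝ) ≤ 63 / 2 * 64 ^ i := by
        push_cast
        rw [lv_real hi1]
        have : (0 : ℝ) < 64 ^ i := by positivity
        linarith
      exact ul_of_lt h_ALM hsg hK hjk hik hA hAK hst2 (hNk.uc rfl) (v5 rfl).1
    · intro hia
      subst hia
      exact ll_of_lt h_ALM hK0 hXc hjk hik (hNk.lc rfl) (v5 rfl).2.1
    · intro hia
      subst hia
      have hVI := (v5 rfl).2.2
      intro u hu1 hu2 hu3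
      by_cases hM : (16 : ℝ) ^ k ≤ |(u.2 : ℝ)|
      · have hm : (16 : ℤ) ^ max j i ≤ 16 ^ max k i :=
          pow_le_pow_right₀ (by norm_num) (max_le_max hjk.le le_rfl)
        have hm' := mul_le_mul_of_nonneg_left hm hXc
        obtain ⟨y, hy1, hy2, hy3⟩ := hNk.il rfl u hu1 hu2 (hu3.trans hm')
        refine ⟨y, hy1, hy2, ?_⟩
        have h6 := (h_ALM K0 _ j k i hK0 (abs_nonneg _) hjk).2 hik hM
        linarith
      · push Not at hM
        by_contra hcon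
        apply hVI
        refine ⟨u, hu1, hu2, by exact_mod_cast hM, Or.inl ?_⟩
        intro y hy1 hy2
        push Not at hcon
        exact lt_of_le_of_lt (T_cut ω _ _ _) (hcon y hy1 hy2)
    · intro hia
      subst hia
      have hVI := (v5 rfl).2.2
      intro u hu1 hu2 hu3
      by_cases hM : (16 : ℝ) ^ k ≤ |(u.2 : ℝ)|
      · have hm : (16 : ℤ) ^ max j i ≤ 16 ^ max k i :=
          pow_le_pow_right₀ (by norm_num) (max_le_max hjk.le le_rfl)
        have hm' := mul_le_mul_of_nonneg_left hm hXc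
        obtain ⟨y, hy1, hy2, hy3⟩ := hNk.ir rfl u hu1 hu2 (hu3.trans hm')
        refine ⟨y, hy1, hy2, ?_⟩
        have h6 := (h_ALM K0 _ j k i hK0 (abs_nonneg _) hjk).2 hik hM
        linarith
      · push Not at hM
        by_contra hcon
        apply hVI
        refine ⟨(-u.1, u.2), by show -lv i ≤ -u.1; linarith, by show -u.1 ≤ lv i; linarith,
          by show |u.2| < 16 ^ k; exact_mod_cast hM, Or.inr ?_⟩
        intro y hy1 hy2
        push Not at hcon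
        have hR : Reach (-lv i, y) u := by
          have h7 : Reach (rev u) (rev (-lv i, y)) := by
            show Reach (-u.1, u.2) (- -lv i, y)
            rw [neg_neg]
            exact hy2
          exact reach_rev.1 h7
        have h8 := hcon y hy1 hR
        have h9 : (bwd ω).TT (-lv i, y) u = T ω (-u.1, u.2) (lv i, y) := by
          show T ω (rev u) (rev (-lv i, y)) = _
          show T ω (-u.1, u.2) (- -lv i, y) = _
          rw [neg_neg]
        rw [h9] at h8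
        have h10 : ((lv i - (-u.1, u.2).1 : ℤ) : ℝ) = ((u.1 + lv i : ℤ) : ℝ) := by
          show ((lv i - -u.1 : ℤ) : ℝ) = _
          push_cast; ring
        rw [h10]
        exact lt_of_le_of_lt (T_cut ω _ _ _) h8
  · exfalso
    apply hN
    refine ⟨ul_of_ge h_ALM hK0 hjk hki hNk.um, ul_of_ge h_ALM hK0 hjk hki hNk.up,
      ll_of_ge h_ALM hK0 hXc hjk hki hNk.lm, ll_of_ge h_ALM hK0 hXc hjk hki hNk.lp,
      fun h => absurd h (by omega), fun h => absurd h (by omega), fun h => absurd h (by omega),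
      fun h => absurd h (by omega)⟩

end Pool.Agent.H4.ND
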