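import Pool.Agent.H4.ND.Common

/-!
# Module LBC: lower bounds between the levels `-lv m` and `lv m`
-/

namespace Pool.Agent.H4.ND

open Pool.Agent.H99.NS Pool.Agent.H22.LPP Pool.Agent.H95.INS Pool.Agent.H76.ND

theorem abs_between {x y z : ℤ} (h1 : min x y ≤ z) (h2 : z ≤ max x y) : |z| ≤ max |x| |y| := by
  rcases le_total x y with h | h
  · rw [min_eq_left h] at h1
    rw [max_eq_right h] at h2
    exact abs_le_max_abs_abs h1 h2
  · rw [min_eq_right h] at h1
    rw [max_eq_left h] at h2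
    rw [max_comm]
    exact abs_le_max_abs_abs h1 h2

theorem lbc_real {D r1 r2 L s : ℝ} (hL : 32 ≤ L) (h1 : |r1| ≤ 2) (h2 : |r2| ≤ 2) (hs : 0 < s) :
    s / 2 * (63 / 128 * D + r1) ^ 2 / (63 * L) + s / 2 * (D / 64 + r2 - r1) ^ 2 / (2 * L) +
      s / 2 * (63 / 128 * D - r2) ^ 2 / (63 * L) ≤ s / 2 * D ^ 2 / (128 * L) + s / 2 := by
  have hL0 : 0 < L := by linarith
  have e : s / 2 * (63 / 128 * D + r1) ^ 2 / (63 * L) + s / 2 * (D / 64 + r2 - r1) ^ 2 / (2 * L) +
      s / 2 * (63 / 128 * D - r2) ^ 2 / (63 * L) = s / 2 * D ^ 2 / (128 * L) +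
      s / 2 * ((r1 ^ 2 / 63 + (r2 - r1) ^ 2 / 2 + r2 ^ 2 / 63) / L) := by
    field_simp
    ring
  rw [e]
  have h3 := abs_le.mp h1
  have h4 := abs_le.mp h2
  have h5 : r1 ^ 2 ≤ 4 := by nlinarith
  have h6 : r2 ^ 2 ≤ 4 := by nlinarith
  have h7 : (r2 - r1) ^ 2 ≤ 16 := by nlinarith
  have h8 : (r1 ^ 2 / 63 + (r2 - r1) ^ 2 / 2 + r2 ^ 2 / 63) / L ≤ 1 := by
    rw [div_le_one hL0]
    linarith
  nlinarith

theorem pf_LBC (h_RND : T_RND) : T_LBC := by
  intro q hq0 hq1
  have hsg := sg_pos hq0 hq1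
  refine ⟨2 + 6 * sg q, by positivity, ?_⟩
  intro P K0 Xc a k m hK hXc hXa ha ham
  induction m, ham using Nat.le_induction with
  | base =>
    intro hmk hbase _ x y hx hy hxy hr
    have hG : 0 ≤ Xc * 16 ^ a := by positivity
    have h := hbase x y (by rwa [max_eq_left hmk]) (by rwa [max_eq_left hmk])
      (by nlinarith) hr
    unfold al at h
    rw [ds_le hmk, max_eq_left hmk] at h
    refine le_trans ?_ h
    have hZ : 0 ≤ K0 * (101 / 100) ^ (k - a) * 4 ^ a *
      (1 + max |(x : ℝ)| |(y : ℝ)| / 16 ^ k) := by positivity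
    nlinarith
  | succ m ham ih =>
    intro hmk hbase hs x y hx hy hxy hr
    have hm1 : 1 ≤ m := by omega
    have hIH := ih (by omega) hbase (fun i h1 h2 => hs i h1 (by omega))
    obtain ⟨hsl, hsr⟩ := hs m ham (by omega)
    have hL := lv_succ hm1
    have hL2 := lv_two hm1
    have hL32 := lv_ge m
    rw [hL] at hr hsl hsr ⊢
    set L : ℤ := lv m with hLdef
    set G : ℤ := Xc * 16 ^ m with hGdef
    have hG1 : 4 * G ≤ 2 * L := by rw [hL2]; exact Xc_le hXa ham
    have hG2 : 16 ≤ G := by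
      have : (1 : ℤ) ≤ 16 ^ m := one_le_pow₀ (by norm_num)
      nlinarith only [this, hXc]
    have hxy' : |x - y| ≤ 32 * G := by
      have : 2 * Xc * 16 ^ (m + 1) = 32 * G := by rw [hGdef, pow_succ]; ring
      rwa [this] at hxy
    have hr2 : Even ((64 * L - -(64 * L)) + (y - x)) := hr.2
    have hev : Even (y - x) := by
      obtain ⟨c, hc⟩ := hr2
      exact ⟨c - 64 * L, by linarith⟩
    obtain ⟨x', hx1, hx2, hx3, hx4⟩ := h_RND x y (63 / 128) hev (by norm_num) (by norm_num)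
    obtain ⟨y', hy1, hy2, hy3, hy4⟩ := h_RND x y (65 / 128) hev (by norm_num) (by norm_num)
    -- real versions
    have hLr : (32 : ℝ) ≤ (L : ℝ) := by exact_mod_cast hL32
    have hGr1 : 4 * (G : ℝ) ≤ 2 * L := by exact_mod_cast hG1
    have hGr2 : (16 : ℝ) ≤ (G : ℝ) := by exact_mod_cast hG2
    have hD : |(x : ℝ) - y| ≤ 32 * G := by exact_mod_cast hxy'
    set D : ℝ := (y : ℝ) - x with hDdef
    have hD1 : |D| ≤ 32 * G := by rw [hDdef, abs_sub_comm]; exact hD
    obtain ⟨r1, hr1⟩ : ∃ r1 : ℝ, r1 = (x' : ℝ) - (x + 63 / 128 * D) := ⟨_, rfl⟩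
    obtain ⟨r2, hr2'⟩ : ∃ r2 : ℝ, r2 = (y' : ℝ) - (x + 65 / 128 * D) := ⟨_, rfl⟩
    have hr1b : |r1| ≤ 2 := by rw [hr1]; exact hx4
    have hr2b : |r2| ≤ 2 := by rw [hr2']; exact hy4
    have a1 := abs_le.mp hD1
    have a2 := abs_le.mp hr1b
    have a3 := abs_le.mp hr2b
    have e1 : (x' : ℝ) - x = 63 / 128 * D + r1 := by rw [hr1]; ring
    have e2 : (y' : ℝ) - x' = D / 64 + r2 - r1 := by rw [hr1, hr2']; ring
    have e3 : (y : ℝ) - y' = 63 / 128 * D - r2 := by rw [hr2', hDdef]; ring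
    have b1r : |((x' - x : ℤ) : ℝ)| ≤ 16 * G := by
      rw [Int.cast_sub, e1, abs_le]
      constructor <;> linarith
    have b2r : |((y' - x' : ℤ) : ℝ)| ≤ 2 * G := by
      rw [Int.cast_sub, e2, abs_le]
      constructor <;> linarith
    have b3r : |((y - y' : ℤ) : ℝ)| ≤ 16 * G := by
      rw [Int.cast_sub, e3, abs_le]
      constructor <;> linarith
    have b1 : |x' - x| ≤ 16 * G := by exact_mod_cast b1r
    have b2 : |y' - x'| ≤ 2 * G := by exact_mod_cast b2r
    have b3 : |y - y'| ≤ 16 * G := by exact_mod_cast b3r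
    have R1 : Reach (-(64 * L), x) (-L, x') := by
      refine ⟨?_, ?_⟩
      · show |x' - x| ≤ -L - -(64 * L)
        linarith
      · show Even ((-L - -(64 * L)) + (x' - x))
        obtain ⟨c, hc⟩ := hx1
        obtain ⟨c', hc'⟩ := lv_even m
        exact ⟨63 * c' + c, by linarith⟩
    have R2 : Reach (-L, x') (L, y') := by
      refine ⟨?_, ?_⟩
      · show |y' - x'| ≤ L - -L
        linarith
      · show Even ((L - -L) + (y' - x'))
        obtain ⟨c, hc⟩ := hx1
        obtain ⟨c', hc'⟩ := hy1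
        exact ⟨L + c' - c, by linarith⟩
    have R3 : Reach (L, y') (64 * L, y) := by
      refine ⟨?_, ?_⟩
      · show |y - y'| ≤ 64 * L - L
        linarith
      · show Even ((64 * L - L) + (y - y'))
        obtain ⟨c, hc⟩ := hy1
        obtain ⟨c', hc'⟩ := lv_even m
        obtain ⟨c'', hc''⟩ := hev
        exact ⟨63 * c' + c'' - c, by linarith⟩
    have mx : |x'| ≤ max |x| |y| := abs_between hx2 hx3
    have my : |y'| ≤ max |x| |y| := abs_between hy2 hy3
    have mX : max |x| |y| ≤ Xc * 16 ^ k := max_le hx hy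
    have hmax : max k m = k := max_eq_left (by omega)
    have f1 := hsl x x' (by rw [hmax]; exact hx) (by rw [hmax]; exact mx.trans mX)
      (by rw [abs_sub_comm]; calc |x' - x| ≤ 16 * G := b1
            _ = 16 * Xc * 16 ^ m := by rw [hGdef]; ring) R1
    have f2 := hIH x' y' (mx.trans mX) (my.trans mX)
      (by rw [abs_sub_comm]; calc |y' - x'| ≤ 2 * G := b2
            _ = 2 * Xc * 16 ^ m := by rw [hGdef]; ring) R2
    have f3 := hsr y' y (by rw [hmax]; exact my.trans mX) (by rw [hmax]; exact hy)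
      (by rw [abs_sub_comm]; calc |y - y'| ≤ 16 * G := b3
            _ = 16 * Xc * 16 ^ m := by rw [hGdef]; ring) R3
    have s1 := P.sup _ _ _ R1 R2
    have s2 := P.sup _ _ _ (reach_trans R1 R2) R3
    -- errors
    set M : ℝ := max |(x : ℝ)| |(y : ℝ)| with hMdef
    have hM0 : 0 ≤ M := le_max_of_le_left (abs_nonneg _)
    have mx' : |(x' : ℝ)| ≤ M := by rw [hMdef]; exact_mod_cast mx
    have my' : |(y' : ℝ)| ≤ M := by rw [hMdef]; exact_mod_cast my
    have hK0 : 0 ≤ K0 := by linarith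
    have g1 : al K0 k m (max |(x : ℝ)| |(x' : ℝ)|) ≤ al K0 k m M :=
      al_mono hK0 (max_le (le_max_left _ _) mx')
    have g3 : al K0 k m (max |(y' : ℝ)| |(y : ℝ)|) ≤ al K0 k m M :=
      al_mono hK0 (max_le my' (le_max_right _ _))
    set β : ℝ := (101 / 100) ^ (k - (m + 1)) with hβ
    have hβ1 : 1 ≤ β := one_le_b _
    have hkm : ((101 : ℝ) / 100) ^ (k - m) = 101 / 100 * β := by
      rw [hβ, ← pow_succ']
      congr 1
      omega
    have hal : al K0 k m M = 101 / 100 * (K0 * β * 4 ^ m * (1 + M / 16 ^ k)) := by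
      unfold al
      rw [hmax, ds_le (by omega), hkm]
      ring
    rw [hal] at g1 g3
    rw [hkm] at f2
    set Z : ℝ := K0 * β * 4 ^ m * (1 + M / 16 ^ k) with hZdef
    have hF : (1 : ℝ) ≤ 4 ^ m := one_le_pow₀ (by norm_num)
    have hW : 1 ≤ 1 + M / 16 ^ k := by
      have : 0 ≤ M / 16 ^ k := by positivity
      linarith
    have hZ1 : 1 ≤ Z := by
      have := one_le_mul_of_one_le_of_one_le (one_le_mul_of_one_le_of_one_le
        (one_le_mul_of_one_le_of_one_le hK hβ1) hF) hW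
      exact this
    have g2 : (2 + 6 * sg q) * K0 * (101 / 100 * β) * 4 ^ m *
        (1 + max |(x' : ℝ)| |(y' : ℝ)| / 16 ^ k) ≤ (2 + 6 * sg q) * (101 / 100) * Z := by
      have h1 : 1 + max |(x' : ℝ)| |(y' : ℝ)| / 16 ^ k ≤ 1 + M / 16 ^ k := by
        gcongr
        exact max_le mx' my'
      have h2 : 0 ≤ (2 + 6 * sg q) * K0 * (101 / 100 * β) * 4 ^ m := by positivity
      calc (2 + 6 * sg q) * K0 * (101 / 100 * β) * 4 ^ m *
          (1 + max |(x' : ℝ)| |(y' : ℝ)| / 16 ^ k)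
          ≤ (2 + 6 * sg q) * K0 * (101 / 100 * β) * 4 ^ m * (1 + M / 16 ^ k) :=
            mul_le_mul_of_nonneg_left h1 h2
        _ = (2 + 6 * sg q) * (101 / 100) * Z := by rw [hZdef]; ring
    have hreal := lbc_real (D := D) hLr hr1b hr2b hsg
    -- the parabolas
    have p1 : par q (-(64 * L), x) (-L, x') =
        mu q * (63 * L) - sg q / 2 * (63 / 128 * D + r1) ^ 2 / (63 * L) := by
      unfold par
      have i1 : (((-L, x') : Site).1 - ((-(64 * L), x) : Site).1 : ℤ) = 63 * L := by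
        show -L - -(64 * L) = 63 * L
        ring
      have i2 : (((((-L, x') : Site).2 - ((-(64 * L), x) : Site).2 : ℤ)) : ℝ) =
          63 / 128 * D + r1 := by
        show ((x' - x : ℤ) : ℝ) = _
        rw [Int.cast_sub, e1]
      rw [i1, i2]
      push_cast
      ring
    have p2 : par q (-L, x') (L, y') =
        mu q * (2 * L) - sg q / 2 * (D / 64 + r2 - r1) ^ 2 / (2 * L) := by
      unfold par
      have i1 : (((L, y') : Site).1 - ((-L, x') : Site).1 : ℤ) = 2 * L := by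
        show L - -L = 2 * L
        ring
      have i2 : (((((L, y') : Site).2 - ((-L, x') : Site).2 : ℤ)) : ℝ) = D / 64 + r2 - r1 := by
        show ((y' - x' : ℤ) : ℝ) = _
        rw [Int.cast_sub, e2]
      rw [i1, i2]
      push_cast
      ring
    have p3 : par q (L, y') (64 * L, y) =
        mu q * (63 * L) - sg q / 2 * (63 / 128 * D - r2) ^ 2 / (63 * L) := by
      unfold par
      have i1 : (((64 * L, y) : Site).1 - ((L, y') : Site).1 : ℤ) = 63 * L := by
        show 64 * L - L = 63 * L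
        ring
      have i2 : (((((64 * L, y) : Site).2 - ((L, y') : Site).2 : ℤ)) : ℝ) =
          63 / 128 * D - r2 := by
        show ((y - y' : ℤ) : ℝ) = _
        rw [Int.cast_sub, e3]
      rw [i1, i2]
      push_cast
      ring
    have p4 : par q (-(64 * L), x) (64 * L, y) =
        mu q * (128 * L) - sg q / 2 * D ^ 2 / (128 * L) := by
      unfold par
      have i1 : (((64 * L, y) : Site).1 - ((-(64 * L), x) : Site).1 : ℤ) = 128 * L := by
        show 64 * L - -(64 * L) = 128 * L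
        ring
      have i2 : (((((64 * L, y) : Site).2 - ((-(64 * L), x) : Site).2 : ℤ)) : ℝ) = D := by
        show ((y - x : ℤ) : ℝ) = _
        rw [Int.cast_sub]
      rw [i1, i2]
      push_cast
      ring
    rw [p1] at f1
    rw [p2] at f2
    rw [p3] at f3
    rw [p4]
    have hE : (2 + 6 * sg q) * K0 * β * 4 ^ (m + 1) * (1 + M / 16 ^ k) =
        4 * (2 + 6 * sg q) * Z := by
      rw [hZdef, pow_succ]
      ring
    rw [hE]
    have hfin : (2 + 6 * sg q) * (101 / 100) * Z + 2 * (101 / 100 * Z) + sg q / 2 ≤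
        4 * (2 + 6 * sg q) * Z := by
      have hsZ : sg q * 1 ≤ sg q * Z := mul_le_mul_of_nonneg_left hZ1 hsg.le
      nlinarith only [hsZ, hZ1, hsg]
    linarith

end Pool.Agent.H4.ND
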