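import Pool.Agent.H4.ND.LBC

/-!
# Module LW: lower bound from the level `-lv (i+1)` to a site of the core
-/

namespace Pool.Agent.H4.ND

open Pool.Agent.H99.NS Pool.Agent.H22.LPP Pool.Agent.H95.INS Pool.Agent.H76.ND

theorem par_mk (q : ℝ) (s t x y : ℤ) : par q (s, x) (t, y) =
    mu q * ((t - s : ℤ) : ℝ) - sg q / 2 * ((y - x : ℤ) : ℝ) ^ 2 / ((t - s : ℤ) : ℝ) := rfl

/-- Splitting of the parabola with a rounding error. -/
theorem par_split {D r h1 h0 s : ℝ} (h1p : 8 ≤ h1) (h0p : 8 ≤ h0) (hr : |r| ≤ 2) (hs : 0 < s) :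
    s / 2 * (h1 / (h1 + h0) * D + r) ^ 2 / h1 + s / 2 * (h0 / (h1 + h0) * D - r) ^ 2 / h0 ≤
      s / 2 * D ^ 2 / (h1 + h0) + s / 2 := by
  have e : s / 2 * (h1 / (h1 + h0) * D + r) ^ 2 / h1 + s / 2 * (h0 / (h1 + h0) * D - r) ^ 2 / h0
      = s / 2 * D ^ 2 / (h1 + h0) + s / 2 * (r ^ 2 / h1 + r ^ 2 / h0) := by
    have a1 : h1 ≠ 0 := by linarith
    have a2 : h0 ≠ 0 := by linarith
    have a3 : h1 + h0 ≠ 0 := by linarith
    field_simp
    ring
  rw [e]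
  have h3 := abs_le.mp hr
  have h5 : r ^ 2 ≤ 4 := by nlinarith
  have h6 : r ^ 2 / h1 ≤ 1 / 2 := by
    rw [div_le_iff₀ (by linarith)]
    linarith only [h1p, h5]
  have h7 : r ^ 2 / h0 ≤ 1 / 2 := by
    rw [div_le_iff₀ (by linarith)]
    linarith
  nlinarith only [hs, h6, h7]

/-- The error term of label `i`. -/
noncomputable def EE (K0 : ℝ) (k i : ℕ) : ℝ := K0 * (101 / 100) ^ ds k i * 4 ^ i

theorem EE_one {K0 : ℝ} (h : 1 ≤ K0) (k i : ℕ) : 1 ≤ EE K0 k i := by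
  unfold EE
  exact one_le_mul_of_one_le_of_one_le (one_le_mul_of_one_le_of_one_le h (one_le_b _))
    (one_le_pow₀ (by norm_num))

theorem EE_succ {K0 : ℝ} (h : 0 ≤ K0) (k i : ℕ) :
    4 * EE K0 k i ≤ 101 / 100 * EE K0 k (i + 1) := by
  unfold EE
  have h1 : ds k i ≤ ds k (i + 1) + 1 := by unfold ds; omega
  have h2 : ((101 : ℝ) / 100) ^ ds k i ≤ (101 / 100) ^ (ds k (i + 1) + 1) :=
    pow_le_pow_right₀ (by norm_num) h1
  rw [pow_succ] at h2
  rw [pow_succ (4 : ℝ)]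
  have h3 : 0 ≤ K0 * 4 ^ i := by positivity
  nlinarith only [mul_le_mul_of_nonneg_left h2 h3, h2, h3]

theorem al_le_EE {K0 D p : ℝ} {k i : ℕ} (h : 0 ≤ K0) (hp : 0 ≤ p) (hD : D ≤ 9 * 16 ^ k + p) :
    al K0 k i D ≤ EE K0 k i * (10 + p / 16 ^ i) := by
  unfold al EE
  have h1 : D / 16 ^ max k i ≤ 9 + p / 16 ^ i := by
    have hk : (16 : ℝ) ^ k ≤ 16 ^ max k i := pow_le_pow_right₀ (by norm_num) (le_max_left _ _)
    have hi : (16 : ℝ) ^ i ≤ 16 ^ max k i := pow_le_pow_right₀ (by norm_num) (le_max_right _ _)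
    have h0 : (0 : ℝ) < 16 ^ max k i := by positivity
    have h2 : p / 16 ^ max k i ≤ p / 16 ^ i := by gcongr
    have h3 : 9 * (16 : ℝ) ^ k / 16 ^ max k i ≤ 9 := by
      rw [div_le_iff₀ h0]
      linarith
    calc D / 16 ^ max k i ≤ (9 * 16 ^ k + p) / 16 ^ max k i := by gcongr
      _ = 9 * (16 : ℝ) ^ k / 16 ^ max k i + p / 16 ^ max k i := by ring
      _ ≤ 9 + p / 16 ^ i := by linarith
  have h2 : 0 ≤ K0 * (101 / 100) ^ ds k i * 4 ^ i := by positivity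
  exact mul_le_mul_of_nonneg_left (by linarith) h2

theorem core_EE {K0 : ℝ} (h : 0 ≤ K0) {k a i : ℕ} (hak : a ≤ k) (hai : a ≤ i) :
    EE K0 k a ≤ EE K0 k i := by
  induction i, hai using Nat.le_induction with
  | base => exact le_rfl
  | succ i hi ih =>
    have h1 := EE_succ h k i
    have h2 : 0 ≤ EE K0 k i := by unfold EE; positivity
    have h3 : 0 ≤ EE K0 k (i + 1) := by unfold EE; positivity
    linarith only [ih, h1, h2]

/-- The auxiliary induction. -/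
theorem aux_LW (h_RND : T_RND) {q : ℝ} (hq0 : 0 < q) (hq1 : q < 1) (P : PS) {K0 : ℝ} {Xc : ℤ}
    {a k : ℕ} (hK : 1 ≤ K0) (hXc : 16 ≤ Xc) (hXa : 4 * Xc ≤ 4 ^ a) (ha : 1 ≤ a) (hak : a ≤ k)
    {y0 : ℤ} (hy0 : |y0| ≤ 8 * 16 ^ k + 1) {i : ℕ} (hai : a ≤ i) :
    (∀ m, a ≤ m → m ≤ i → LL P q K0 Xc k m (-lv (m + 1)) (-lv m)) →
    ∀ x : ℤ, |x| ≤ Xc * 16 ^ max k i → 2 * |x - y0| ≤ Xc * 16 ^ i + 2 → Even (x - y0) →
      Reach (-lv (i + 1), x) (-lv a, y0) ∧
      mu q * ((lv (i + 1) - lv a : ℤ) : ℝ)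
        - sg q / 2 * ((y0 - x : ℤ) : ℝ) ^ 2 / ((lv (i + 1) - lv a : ℤ) : ℝ)
        - (16 + 2 * sg q) * EE K0 k i * (1 + |((x - y0 : ℤ) : ℝ)| / 16 ^ i) ≤
      P.TT (-lv (i + 1), x) (-lv a, y0) := by
  have hsg := sg_pos hq0 hq1
  have hK0 : 0 ≤ K0 := by linarith
  induction i, hai using Nat.le_induction with
  | base =>
    intro hLL x hx hxy hev
    have hG1 := Xc_le hXa le_rfl
    have hL := lv_succ ha
    have hL2 := lv_two ha
    have hL32 := lv_ge a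
    have hR : Reach (-lv (a + 1), x) (-lv a, y0) := by
      refine ⟨?_, ?_⟩
      · show |y0 - x| ≤ -lv a - -lv (a + 1)
        rw [abs_sub_comm]
        linarith only [hxy, hG1, hL, hL2, hL32]
      · show Even ((-lv a - -lv (a + 1)) + (y0 - x))
        obtain ⟨c, hc⟩ := hev
        obtain ⟨c', hc'⟩ := lv_even a
        exact ⟨63 * c' - c, by linarith⟩
    refine ⟨hR, ?_⟩
    have h16 : (0 : ℤ) < 16 ^ a := by positivity
    have h := hLL a le_rfl le_rfl x y0 hx (by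
      rw [max_eq_left hak]
      have h16k : (1 : ℤ) ≤ 16 ^ k := one_le_pow₀ (by norm_num)
      nlinarith only [hXc, hy0, h16k]) (by nlinarith only [hXc, hxy, h16]) hR
    rw [par_mk] at h
    have e : (-lv a - -lv (a + 1) : ℤ) = lv (a + 1) - lv a := by ring
    rw [e] at h
    refine le_trans ?_ h
    have hp : (0 : ℝ) ≤ |((x - y0 : ℤ) : ℝ)| := abs_nonneg _
    have hal : al K0 k a (max |(x : ℝ)| |(y0 : ℝ)|) ≤
        EE K0 k a * (10 + |((x - y0 : ℤ) : ℝ)| / 16 ^ a) := by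
      refine al_le_EE hK0 hp ?_
      have h16k : (1 : ℝ) ≤ 16 ^ k := one_le_pow₀ (by norm_num)
      have hy0r : |(y0 : ℝ)| ≤ 8 * 16 ^ k + 1 := by exact_mod_cast hy0
      have hxr : |(x : ℝ)| ≤ |((x - y0 : ℤ) : ℝ)| + |(y0 : ℝ)| := by
        rw [Int.cast_sub]
        have := abs_add_le ((x : ℝ) - y0) y0
        rwa [sub_add_cancel] at this
      exact max_le (by linarith) (by linarith)
    have hEE := EE_one hK k a
    have hp2 : 0 ≤ |((x - y0 : ℤ) : ℝ)| / 16 ^ a := by positivity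
    have hfin : EE K0 k a * (10 + |((x - y0 : ℤ) : ℝ)| / 16 ^ a) ≤
        (16 + 2 * sg q) * EE K0 k a * (1 + |((x - y0 : ℤ) : ℝ)| / 16 ^ a) := by
      have : EE K0 k a * (10 + |((x - y0 : ℤ) : ℝ)| / 16 ^ a) ≤
          EE K0 k a * ((16 + 2 * sg q) * (1 + |((x - y0 : ℤ) : ℝ)| / 16 ^ a)) := by
        refine mul_le_mul_of_nonneg_left ?_ (by linarith)
        nlinarith only [hp2, hq0, hq1, hsg]
      linarith
    linarith
  | succ i hai ih =>
    intro hLL x hx hxy hev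
    have hi1 : 1 ≤ i := by omega
    have hG1 := Xc_le hXa (show a ≤ i by omega)
    have hG1' := Xc_le hXa (show a ≤ i + 1 by omega)
    have hL := lv_succ hi1
    have hL' := lv_succ (show 1 ≤ i + 1 by omega)
    have hL2 := lv_two hi1
    have hL2' := lv_two (show 1 ≤ i + 1 by omega)
    have hLa := lv_mono hai
    have hLa32 := lv_ge a
    have hL32 := lv_ge i
    have h16 : (1 : ℤ) ≤ 16 ^ i := one_le_pow₀ (by norm_num)
    have h16i : (16 : ℤ) ≤ 16 ^ i := by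
      calc (16 : ℤ) = 16 ^ 1 := by norm_num
        _ ≤ 16 ^ i := pow_le_pow_right₀ (by norm_num) hi1
    set G : ℤ := Xc * 16 ^ i with hG
    have hGs : Xc * 16 ^ (i + 1) = 16 * G := by rw [hG, pow_succ]; ring
    have hG2 : 256 ≤ G := by nlinarith only [hXc, h16i, h16]
    rw [hGs] at hxy hG1'
    -- heights
    set A : ℤ := lv a with hA
    set B : ℤ := lv (i + 1) with hB
    have hh1 : (8 : ℤ) ≤ 63 * B := by linarith [lv_ge (i + 1)]
    have hh0 : (8 : ℤ) ≤ B - A := by linarith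
    have hl0 : (0 : ℝ) ≤ ((63 * B : ℤ) : ℝ) / ((63 * B + (B - A) : ℤ) : ℝ) := by
      have : (0 : ℝ) ≤ ((63 * B : ℤ) : ℝ) := by exact_mod_cast (by linarith : (0 : ℤ) ≤ 63 * B)
      have : (0 : ℝ) ≤ ((63 * B + (B - A) : ℤ) : ℝ) := by
        exact_mod_cast (by linarith : (0 : ℤ) ≤ 63 * B + (B - A))
      positivity
    have hh1r : (8 : ℝ) ≤ ((63 * B : ℤ) : ℝ) := by exact_mod_cast hh1
    have hh0r : (8 : ℝ) ≤ ((B - A : ℤ) : ℝ) := by exact_mod_cast hh0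
    have hsum : ((63 * B + (B - A) : ℤ) : ℝ) = ((63 * B : ℤ) : ℝ) + ((B - A : ℤ) : ℝ) := by
      push_cast; ring
    have hl1 : ((63 * B : ℤ) : ℝ) / ((63 * B + (B - A) : ℤ) : ℝ) ≤ 1 := by
      rw [hsum, div_le_one (by linarith)]
      linarith
    have hev' : Even (y0 - x) := by
      obtain ⟨c, hc⟩ := hev
      exact ⟨-c, by linarith⟩
    obtain ⟨z, hz1, hz2, hz3, hz4⟩ := h_RND x y0 _ hev' hl0 hl1
    rw [hsum] at hz4
    set h1 : ℝ := ((63 * B : ℤ) : ℝ) with hh1def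
    set h0 : ℝ := ((B - A : ℤ) : ℝ) with hh0def
    obtain ⟨r, hrdef⟩ : ∃ r : ℝ, r = (z : ℝ) - (x + h1 / (h1 + h0) * (y0 - x)) := ⟨_, rfl⟩
    have hr : |r| ≤ 2 := by rw [hrdef]; exact hz4
    obtain ⟨D, hD⟩ : ∃ D : ℝ, D = (y0 : ℝ) - x := ⟨_, rfl⟩
    have hne : h1 + h0 ≠ 0 := by linarith
    have e1 : ((z - x : ℤ) : ℝ) = h1 / (h1 + h0) * D + r := by
      rw [hrdef, hD, Int.cast_sub]; ring
    have e2 : ((y0 - z : ℤ) : ℝ) = h0 / (h1 + h0) * D - r := by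
      have : h0 / (h1 + h0) = 1 - h1 / (h1 + h0) := by field_simp; ring
      rw [this, hrdef, hD, Int.cast_sub]; ring
    have e3 : ((y0 - x : ℤ) : ℝ) = D := by rw [hD, Int.cast_sub]
    -- the absolute values
    have hDabs : |((x - y0 : ℤ) : ℝ)| = |D| := by
      rw [hD, Int.cast_sub, abs_sub_comm]
    have hxyr : 2 * |D| ≤ 16 * (G : ℝ) + 2 := by
      have : ((2 * |x - y0| : ℤ) : ℝ) ≤ ((16 * G + 2 : ℤ) : ℝ) := by exact_mod_cast hxy
      push_cast at this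
      rw [hD, abs_sub_comm]
      exact this
    have hc : |h0 / (h1 + h0) * D| ≤ |D| / 64 := by
      rw [abs_mul, abs_of_nonneg (by positivity)]
      have : h0 / (h1 + h0) ≤ 1 / 64 := by
        rw [div_le_div_iff₀ (by linarith) (by norm_num)]
        have : 64 * (B - A) ≤ 63 * B + (B - A) := by linarith
        have h2 : ((64 * (B - A) : ℤ) : ℝ) ≤ ((63 * B + (B - A) : ℤ) : ℝ) := by exact_mod_cast this
        rw [hsum] at h2
        have h3 : ((64 * (B - A) : ℤ) : ℝ) = 64 * h0 := by rw [hh0def]; push_cast; ring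
        rw [h3] at h2
        linarith
      have h3 := mul_le_mul_of_nonneg_right this (abs_nonneg D)
      linarith
    have hzy : |((z - y0 : ℤ) : ℝ)| ≤ |D| / 64 + 2 := by
      have : ((z - y0 : ℤ) : ℝ) = -(h0 / (h1 + h0) * D - r) := by rw [← e2]; push_cast; ring
      rw [this, abs_neg]
      have := abs_sub (h0 / (h1 + h0) * D) r
      linarith
    have hGr : (256 : ℝ) ≤ G := by exact_mod_cast hG2
    have hzy2r : 2 * |((z - y0 : ℤ) : ℝ)| ≤ (G : ℝ) + 2 := by linarith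
    have hzy2 : 2 * |z - y0| ≤ G + 2 := by exact_mod_cast hzy2r
    have hxz : |z - x| ≤ |x - y0| := by
      have := abs_between (x := x - x) (y := y0 - x) (z := z - x) (by
        rcases le_total x y0 with h | h
        · rw [min_eq_left (by linarith)]; rw [min_eq_left h] at hz2; linarith
        · rw [min_eq_right (by linarith)]; rw [min_eq_right h] at hz2; linarith) (by
        rcases le_total x y0 with h | h
        · rw [max_eq_right (by linarith)]; rw [max_eq_right h] at hz3; linarith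
        · rw [max_eq_left (by linarith)]; rw [max_eq_left h] at hz3; linarith)
      rw [sub_self, abs_zero, max_eq_right (abs_nonneg _), abs_sub_comm y0 x] at this
      exact this
    have hz0 : |z| ≤ |z - y0| + |y0| := by
      have := abs_add_le (z - y0) y0
      rwa [sub_add_cancel] at this
    have h16k : (1 : ℤ) ≤ 16 ^ k := one_le_pow₀ (by norm_num)
    have hm1 : (16 : ℤ) ^ k ≤ 16 ^ max k i := pow_le_pow_right₀ (by norm_num) (le_max_left _ _)
    have hm2 : (16 : ℤ) ^ i ≤ 16 ^ max k i := pow_le_pow_right₀ (by norm_num) (le_max_right _ _)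
    have hm3 : (16 : ℤ) ^ max k i ≤ 16 ^ max k (i + 1) :=
      pow_le_pow_right₀ (by norm_num) (max_le_max le_rfl (by omega))
    have hzb : |z| ≤ Xc * 16 ^ max k i := by
      -- `|z| ≤ G/4 + ...`
      have hz5 : 64 * |z - y0| ≤ 8 * G + 129 := by
        have : 64 * |((z - y0 : ℤ) : ℝ)| ≤ 8 * G + 129 := by linarith
        exact_mod_cast this
      have hX1 : 16 * 16 ^ max k i ≤ Xc * 16 ^ max k i := by nlinarith only [hXc, h16k, hm1]
      have hG3 : G ≤ Xc * 16 ^ max k i := by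
        rw [hG]; exact mul_le_mul_of_nonneg_left hm2 (by linarith)
      linarith
    -- reaches
    have R1 : Reach (-lv (i + 1 + 1), x) (-lv (i + 1), z) := by
      refine ⟨?_, ?_⟩
      · show |z - x| ≤ -lv (i + 1) - -lv (i + 1 + 1)
        linarith only [hL2, hxy, hG1, hG2, hL, hL', hxz]
      · show Even ((-lv (i + 1) - -lv (i + 1 + 1)) + (z - x))
        obtain ⟨c, hc⟩ := hz1
        obtain ⟨c', hc'⟩ := lv_even (i + 1)
        exact ⟨63 * c' + c, by linarith only [hL', hc, hc']⟩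
    have hev2 : Even (z - y0) := by
      obtain ⟨c, hc⟩ := hz1
      obtain ⟨c', hc'⟩ := hev
      exact ⟨c + c', by linarith only [hc, hc']⟩
    obtain ⟨R2, hIH⟩ := ih (fun m h1 h2 => hLL m h1 (by omega)) z hzb hzy2 hev2
    refine ⟨reach_trans R1 R2, ?_⟩
    have hxb : |z| ≤ Xc * 16 ^ max k (i + 1) :=
      hzb.trans (mul_le_mul_of_nonneg_left hm3 (by linarith))
    have hLLi := hLL (i + 1) (by omega) le_rfl x z hx hxb (by
      rw [abs_sub_comm, show 16 * Xc * 16 ^ (i + 1) = 16 * (Xc * 16 ^ (i + 1)) by ring, hGs]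
      linarith) R1
    rw [par_mk] at hLLi
    have e4 : (-lv (i + 1) - -lv (i + 1 + 1) : ℤ) = 63 * B := by rw [hL']; ring
    rw [e4, e1] at hLLi
    rw [e2] at hIH
    have e6 : (lv (i + 1 + 1) - lv a : ℤ) = 63 * B + (B - A) := by rw [hL']; ring
    have e7 : (lv (i + 1 + 1) - A : ℤ) = 63 * B + (B - A) := e6
    rw [e7, e3, hsum, hDabs]
    have hsup := P.sup _ _ _ R1 R2
    have hsplit := par_split (D := D) hh1r hh0r hr hsg
    -- errors
    have hal : al K0 k (i + 1) (max |(x : ℝ)| |(z : ℝ)|) ≤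
        EE K0 k (i + 1) * (10 + |D| / 16 ^ (i + 1)) := by
      refine al_le_EE hK0 (abs_nonneg _) ?_
      have h16kr : (1 : ℝ) ≤ 16 ^ k := one_le_pow₀ (by norm_num)
      have hy0r : |(y0 : ℝ)| ≤ 8 * 16 ^ k + 1 := by exact_mod_cast hy0
      have hxr : |(x : ℝ)| ≤ |D| + |(y0 : ℝ)| := by
        rw [hD, abs_sub_comm]
        have := abs_add_le ((x : ℝ) - y0) y0
        rwa [sub_add_cancel] at this
      have hzr : |(z : ℝ)| ≤ max |(x : ℝ)| |(y0 : ℝ)| := by exact_mod_cast abs_between hz2 hz3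
      refine max_le (by linarith only [h16kr, hy0r, hxr]) (hzr.trans (max_le (by linarith) ?_))
      have := abs_nonneg D
      linarith only [h16kr, hy0r, this]
    have hEE := EE_one hK k (i + 1)
    have hEs := EE_succ hK0 k i
    have hEi := EE_one hK k i
    obtain ⟨pp, hpp⟩ : ∃ pp : ℝ, pp = |D| / 16 ^ (i + 1) := ⟨_, rfl⟩
    have hpp0 : 0 ≤ pp := by rw [hpp]; positivity
    have hzp : |((z - y0 : ℤ) : ℝ)| / 16 ^ i ≤ pp / 4 + 1 / 8 := by
      have h16r : (16 : ℝ) ≤ 16 ^ i := by exact_mod_cast h16i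
      have hpos : (0 : ℝ) < 16 ^ i := by positivity
      rw [div_le_iff₀ hpos, hpp, pow_succ]
      have e : (|D| / (16 ^ i * 16) / 4 + 1 / 8) * 16 ^ i = |D| / 64 + 16 ^ i / 8 := by
        field_simp
        ring
      rw [e]
      linarith only [hzy, h16r]
    rw [← hpp] at hal ⊢
    have hIHerr : (16 + 2 * sg q) * EE K0 k i * (1 + |((z - y0 : ℤ) : ℝ)| / 16 ^ i) ≤
        (16 + 2 * sg q) * (101 / 400 * EE K0 k (i + 1)) * (9 / 8 + pp / 4) := by
      have h1 : EE K0 k i ≤ 101 / 400 * EE K0 k (i + 1) := by linarith only [hEs]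
      have h2 : 1 + |((z - y0 : ℤ) : ℝ)| / 16 ^ i ≤ 9 / 8 + pp / 4 := by linarith only [hzp]
      gcongr
    have hfin : (16 + 2 * sg q) * (101 / 400 * EE K0 k (i + 1)) * (9 / 8 + pp / 4) +
        EE K0 k (i + 1) * (10 + pp) + sg q / 2 ≤
        (16 + 2 * sg q) * EE K0 k (i + 1) * (1 + pp) := by
      set Y := EE K0 k (i + 1) with hY
      have hs2 : sg q / 2 ≤ sg q / 2 * Y := by nlinarith only [hq0, hq1, hsg, hEE]
      have h3 : (16 + 2 * sg q) * (101 / 400) * (9 / 8 + pp / 4) + (10 + pp) + sg q / 2 ≤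
          (16 + 2 * sg q) * (1 + pp) := by
        nlinarith only [mul_nonneg hsg.le hpp0, hq0, hq1, hsg, hpp0]
      nlinarith only [mul_le_mul_of_nonneg_left h3 (show 0 ≤ Y by linarith), hs2, h3, hq0, hq1, hEi, hEs]
    nlinarith only [hIH, hLLi, hsup, hsplit, hal, hIHerr, hfin]

theorem pf_LW (h_RND : T_RND) : T_LW := by
  intro q hq0 hq1
  have hsg := sg_pos hq0 hq1
  refine ⟨2 * (16 + 2 * sg q) + 10 + 2 * sg q, by positivity, ?_⟩
  intro P K0 Xc a k i u x hK hXc hXa ha hak hai hu1 hu2 hu3 hxu hR hIL hLL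
  have hK0 : 0 ≤ K0 := by linarith
  have h16k : (1 : ℤ) ≤ 16 ^ k := one_le_pow₀ (by norm_num)
  have hu3' : |u.2| ≤ 8 * 16 ^ k := by exact_mod_cast hu3
  obtain ⟨y0, hy1, hy2, hy3⟩ := hIL u hu1 hu2 (by
    rw [max_eq_left hak]
    nlinarith only [hXc, h16k, hu3'])
  have hy0 : |y0| ≤ 8 * 16 ^ k + 1 := by
    have := abs_add_le (y0 - u.2) u.2
    rw [sub_add_cancel] at this
    linarith
  have hm1 : (16 : ℤ) ^ k ≤ 16 ^ max k i := pow_le_pow_right₀ (by norm_num) (le_max_left _ _)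
  have hm2 : (16 : ℤ) ^ i ≤ 16 ^ max k i := pow_le_pow_right₀ (by norm_num) (le_max_right _ _)
  have hx : |x| ≤ Xc * 16 ^ max k i := by
    have h1 := abs_add_le (x - u.2) u.2
    rw [sub_add_cancel] at h1
    have h2 : Xc * 16 ^ i ≤ Xc * 16 ^ max k i := mul_le_mul_of_nonneg_left hm2 (by linarith)
    have h3 : 16 * 16 ^ max k i ≤ Xc * 16 ^ max k i := by nlinarith only [hXc, h16k, hm1]
    linarith
  have hxy : |x - y0| ≤ |x - u.2| + 1 := by
    have h1 := abs_sub_le x u.2 y0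
    rw [abs_sub_comm u.2 y0] at h1
    linarith
  have hev : Even (x - y0) := by
    have h1 : Even ((u.1 - -lv (i + 1)) + (u.2 - x)) := hR.2
    have h2 : Even ((u.1 - -lv a) + (u.2 - y0)) := hy2.2
    obtain ⟨c1, hc1⟩ := h1
    obtain ⟨c2, hc2⟩ := h2
    obtain ⟨c3, hc3⟩ := lv_even (i + 1)
    obtain ⟨c4, hc4⟩ := lv_even a
    exact ⟨c2 - c1 + c3 - c4, by linarith⟩
  obtain ⟨R1, hA⟩ := aux_LW h_RND hq0 hq1 P hK hXc hXa ha hak hy0 hai hLL x hx (by linarith) hev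
  have hsup := P.sup _ _ _ R1 hy2
  -- errors
  have hEE := EE_one hK k i
  have hal : al K0 k a |(u.2 : ℝ)| ≤ EE K0 k i * 10 := by
    have h1 := al_le_EE (i := a) (k := k) (D := |(u.2 : ℝ)|) (p := 0) hK0 le_rfl (by
      have : (0 : ℝ) ≤ 16 ^ k := by positivity
      linarith)
    rw [zero_div, add_zero] at h1
    refine h1.trans (mul_le_mul_of_nonneg_right (core_EE hK0 hak hai) (by norm_num))
  have hpos : (0 : ℝ) < 16 ^ i := by positivity
  have h16r : (1 : ℝ) ≤ 16 ^ i := one_le_pow₀ (by norm_num)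
  obtain ⟨d, hd⟩ : ∃ d : ℝ, d = |((x - u.2 : ℤ) : ℝ)| := ⟨_, rfl⟩
  have hd0 : 0 ≤ d := by rw [hd]; exact abs_nonneg _
  have hxyr : |((x - y0 : ℤ) : ℝ)| ≤ d + 1 := by
    rw [hd]
    exact_mod_cast hxy
  have h1 : |((x - y0 : ℤ) : ℝ)| / 16 ^ i ≤ d / 16 ^ i + 1 := by
    rw [div_le_iff₀ hpos, add_mul, div_mul_cancel₀ _ hpos.ne']
    linarith
  -- the parabola
  have hH : (2 : ℝ) * 16 ^ i ≤ ((lv (i + 1) - lv a : ℤ) : ℝ) := by
    have hL := lv_succ (show 1 ≤ i by omega)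
    have hL2 := lv_two (show 1 ≤ i by omega)
    have hLa := lv_mono hai
    have h64 : (16 : ℤ) ^ i ≤ 64 ^ i := pow_le_pow_left₀ (by norm_num) (by norm_num) i
    have : 2 * (16 : ℤ) ^ i ≤ lv (i + 1) - lv a := by linarith
    exact_mod_cast this
  obtain ⟨H, hHdef⟩ : ∃ H : ℝ, H = ((lv (i + 1) - lv a : ℤ) : ℝ) := ⟨_, rfl⟩
  rw [← hHdef] at hA hH ⊢
  have hsq : ((y0 - x : ℤ) : ℝ) ^ 2 ≤ ((x - u.2 : ℤ) : ℝ) ^ 2 + 2 * d + 1 := by
    have h2 : ((y0 - x : ℤ) : ℝ) ^ 2 = |((x - y0 : ℤ) : ℝ)| ^ 2 := by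
      rw [sq_abs]; push_cast; ring
    have h3 : ((x - u.2 : ℤ) : ℝ) ^ 2 = d ^ 2 := by rw [hd, sq_abs]
    rw [h2, h3]
    nlinarith only [abs_nonneg ((x - y0 : ℤ) : ℝ), hxyr, hq0, hq1, hd0]
  have hpar : sg q / 2 * ((y0 - x : ℤ) : ℝ) ^ 2 / H ≤
      sg q / 2 * ((x - u.2 : ℤ) : ℝ) ^ 2 / H + sg q * (1 + d / 16 ^ i) := by
    have hH0 : 0 < H := by linarith
    have h4 : sg q / 2 * ((y0 - x : ℤ) : ℝ) ^ 2 / H ≤
        sg q / 2 * (((x - u.2 : ℤ) : ℝ) ^ 2 + 2 * d + 1) / H := by gcongr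
    have h5 : sg q / 2 * (((x - u.2 : ℤ) : ℝ) ^ 2 + 2 * d + 1) / H =
        sg q / 2 * ((x - u.2 : ℤ) : ℝ) ^ 2 / H + sg q / 2 * ((2 * d + 1) / H) := by ring
    have h6 : (2 * d + 1) / H ≤ 2 * (1 + d / 16 ^ i) := by
      rw [div_le_iff₀ hH0]
      have h7 : 0 ≤ 1 + d / 16 ^ i := by positivity
      have h8 : 2 * (1 + d / 16 ^ i) * (2 * 16 ^ i) ≤ 2 * (1 + d / 16 ^ i) * H :=
        mul_le_mul_of_nonneg_left hH (by linarith)
      have h9 : 2 * (1 + d / 16 ^ i) * (2 * 16 ^ i) = 4 * 16 ^ i + 4 * d := by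
        field_simp
        ring
      linarith
    have h10 := mul_le_mul_of_nonneg_left h6 (show 0 ≤ sg q / 2 by linarith)
    linarith
  have hmu : mu q * ((u.1 + lv (i + 1) : ℤ) : ℝ) =
      mu q * H + mu q * ((u.1 + lv a : ℤ) : ℝ) := by
    rw [hHdef]; push_cast; ring
  rw [hmu, ← hd]
  obtain ⟨t, ht⟩ : ∃ t : ℝ, t = d / 16 ^ i := ⟨_, rfl⟩
  have ht0 : 0 ≤ t := by rw [ht]; positivity
  rw [← ht] at h1 hpar ⊢
  have hE : (2 * (16 + 2 * sg q) + 10 + 2 * sg q) * K0 * (101 / 100) ^ ds k i * 4 ^ i * (1 + t) =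
      (2 * (16 + 2 * sg q) + 10 + 2 * sg q) * EE K0 k i * (1 + t) := by
    unfold EE; ring
  rw [hE]
  obtain ⟨Y, hY⟩ : ∃ Y : ℝ, Y = EE K0 k i := ⟨_, rfl⟩
  rw [← hY] at hA hal hEE ⊢
  have hAerr : (16 + 2 * sg q) * Y * (1 + |((x - y0 : ℤ) : ℝ)| / 16 ^ i) ≤
      (16 + 2 * sg q) * Y * (2 + t) :=
    mul_le_mul_of_nonneg_left (by linarith) (by positivity)
  have h20 : sg q * (1 + t) ≤ sg q * Y * (1 + t) := by
    have : 0 ≤ sg q * (1 + t) := by positivity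
    nlinarith only [hq0, hq1, hEE, this]
  have h21 : Y * 10 ≤ 10 * Y * (1 + t) := by nlinarith only [ht0, hq0, hq1, hEE]
  have h22 : (16 + 2 * sg q) * Y * (2 + t) ≤ 2 * (16 + 2 * sg q) * Y * (1 + t) := by
    have : 0 ≤ (16 + 2 * sg q) * Y * t := by positivity
    nlinarith only [this]
  have h23 : 0 ≤ sg q * Y * (1 + t) := by positivity
  have h24 : (2 * (16 + 2 * sg q) + 10 + 2 * sg q) * Y * (1 + t) =
      2 * (16 + 2 * sg q) * Y * (1 + t) + 10 * Y * (1 + t) + 2 * (sg q * Y * (1 + t)) := by ring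
  rw [h24]
  linarith

end Pool.Agent.H4.ND
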