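import Pool.Agent.H4.ND.LW

/-!
# Module WB: upper bound for paths from the level `-lv (i+1)` to the core
-/

namespace Pool.Agent.H4.ND

open Pool.Agent.H99.NS Pool.Agent.H22.LPP Pool.Agent.H95.INS Pool.Agent.H76.ND

theorem titu {p r P Q : ℝ} (hP : 0 < P) (hQ : 0 < Q) :
    (p + r) ^ 2 / (P + Q) ≤ p ^ 2 / P + r ^ 2 / Q := by
  rw [div_add_div _ _ hP.ne' hQ.ne', div_le_div_iff₀ (by positivity) (by positivity)]
  nlinarith [sq_nonneg (p * Q - r * P), mul_pos hP hQ]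

/-- Merging of two squares with a gain. -/
theorem titu_gain {p r P Q T N d : ℝ} (hP : 0 < P) (hQ : 0 < Q) (hN : 0 < N)
    (hS : P + Q + 305 / 10000 * N ≤ T) (hT : T ≤ 326 / 10 * N) (hp : 0 ≤ p) (hr : 0 ≤ r)
    (hd : |d| ≤ p + r) :
    d ^ 2 / T + 286 / 10000000 * ((p + r) ^ 2 / N) ≤ p ^ 2 / P + r ^ 2 / Q := by
  refine le_trans ?_ (titu hP hQ)
  have hS0 : 0 < P + Q := by linarith
  have hT0 : 0 < T := by linarith
  have h1 : 1 / T + 286 / 10000000 / N ≤ 1 / (P + Q) := by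
    rw [div_add_div _ _ hT0.ne' hN.ne', div_le_div_iff₀ (by positivity) hS0]
    have h2 : T * (P + Q) ≤ T * T := by nlinarith only [hP, hN, hS, hQ]
    have h3 : T * T ≤ (326 / 10 * N) * (326 / 10 * N) := by nlinarith
    nlinarith only [h2, h3, hN, hS]
  have h2 : d ^ 2 ≤ (p + r) ^ 2 := sq_le_sq' (by linarith [abs_le.mp hd]) (abs_le.mp hd).2
  have h3 : d ^ 2 / T ≤ (p + r) ^ 2 / T := by gcongr
  have h4 := mul_le_mul_of_nonneg_left h1 (sq_nonneg (p + r))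
  have e1 : (p + r) ^ 2 * (1 / T + 286 / 10000000 / N) =
      (p + r) ^ 2 / T + 286 / 10000000 * ((p + r) ^ 2 / N) := by ring
  have e2 : (p + r) ^ 2 * (1 / (P + Q)) = (p + r) ^ 2 / (P + Q) := by ring
  rw [e1, e2] at h4
  linarith

theorem young {A B σ : ℝ} (hA : 0 < A) : B * σ ≤ A * σ ^ 2 + B ^ 2 / (4 * A) := by
  have e : A * σ ^ 2 + B ^ 2 / (4 * A) - B * σ = (2 * A * σ - B) ^ 2 / (4 * A) := by
    field_simp
    ring
  have h : 0 ≤ (2 * A * σ - B) ^ 2 / (4 * A) := by positivity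
  linarith

/-- The two pieces together. `s` curvature, `c` number of linear error terms. -/
theorem comb {s p r P Q T N d F E t m1 m2 W1 W2 e2 : ℝ} {c : ℝ} (hs : 0 < s)
    (hP : 0 < P) (hQ : 0 < Q) (hN : 0 < N)
    (hS : P + Q + 305 / 10000 * N ≤ T) (hT : T ≤ 326 / 10 * N) (hp : 0 ≤ p) (hr : 0 ≤ r)
    (hd : |d| ≤ p + r) (hF : 0 < F) (ht : (p + r) ^ 2 / N = t ^ 2 * F)
    (h1 : W1 ≤ m1 - s / 2 * (p ^ 2 / P) + E * F * (10 + t))
    (h2 : W2 ≤ m2 - s / 2 * (r ^ 2 / Q) + e2 + (c - 1) * (E * F * (10 + t))) :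
    W1 + W2 ≤ m1 + m2 - s / 2 * (d ^ 2 / T) + 10 * c * E * F +
      c ^ 2 * E ^ 2 * F * (17483 / s) + e2 := by
  have h3 := mul_le_mul_of_nonneg_left (titu_gain hP hQ hN hS hT hp hr hd)
    (show 0 ≤ s / 2 by linarith only [hs])
  have hA : 0 < s / 2 * (286 / 10000000) := by positivity
  have h4 := mul_le_mul_of_nonneg_right (young (B := c * E) (σ := t) hA) hF.le
  have e1 : (c * E) ^ 2 / (4 * (s / 2 * (286 / 10000000))) =
      c ^ 2 * E ^ 2 * ((10000000 / 572) / s) := by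
    field_simp
    ring
  rw [e1] at h4
  have h5 : c ^ 2 * E ^ 2 * F * ((10000000 / 572) / s) ≤ c ^ 2 * E ^ 2 * F * (17483 / s) := by
    have h6 : (10000000 / 572 : ℝ) / s ≤ 17483 / s := by
      gcongr
      norm_num
    exact mul_le_mul_of_nonneg_left h6 (by positivity)
  have e2 : s / 2 * (286 / 10000000 * ((p + r) ^ 2 / N)) =
      s / 2 * (286 / 10000000) * t ^ 2 * F := by rw [ht]; ring
  rw [mul_add, e2] at h3
  nlinarith only [h1, h2, h3, h4, h5]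

theorem pf_WB : T_WB := by
  intro q hq0 hq1
  have hsg := sg_pos hq0 hq1
  refine ⟨20 + 70000 / sg q, by positivity, ?_⟩
  intro P K0 a k i u g hK ha hak hai hu1 hu2
  have hK0 : 0 ≤ K0 := by linarith
  -- auxiliary objects
  induction i, hai using Nat.le_induction with
  | base =>
    intro hpath hgu hcore hslab
    have hL := lv_succ ha
    have hLr := lv_real ha
    have hLr' := lv_real_succ ha
    have hLp := lv_pos a
    have hLp' := lv_pos (a + 1)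
    obtain ⟨N, hN⟩ : ∃ N : ℝ, N = 64 ^ a := ⟨_, rfl⟩
    have hN0 : 0 < N := by rw [hN]; positivity
    rw [← hN] at hLr hLr'
    have hu1r : -((lv a : ℤ) : ℝ) ≤ (u : ℝ) := by exact_mod_cast hu1
    have hu2r : (u : ℝ) ≤ ((lv a : ℤ) : ℝ) := by exact_mod_cast hu2
    obtain ⟨p, hp⟩ : ∃ p : ℝ, p = |((g (-lv a) - g (-lv (a + 1)) : ℤ) : ℝ)| := ⟨_, rfl⟩
    obtain ⟨r, hr⟩ : ∃ r : ℝ, r = |((g u - g (-lv a) : ℤ) : ℝ)| := ⟨_, rfl⟩
    have hp0 : 0 ≤ p := by rw [hp]; exact abs_nonneg _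
    have hr0 : 0 ≤ r := by rw [hr]; exact abs_nonneg _
    have h16k : (0 : ℝ) < 16 ^ k := by positivity
    have hb1 : |(g (-lv a) : ℝ)| ≤ 8 * 16 ^ k + r := by
      have h1 := abs_sub_abs_le_abs_sub (g (-lv a) : ℝ) (g u)
      rw [abs_sub_comm, ← Int.cast_sub, ← hr] at h1
      linarith
    have hb2 : |(g (-lv (a + 1)) : ℝ)| ≤ 8 * 16 ^ k + (p + r) := by
      have h1 := abs_sub_abs_le_abs_sub (g (-lv (a + 1)) : ℝ) (g (-lv a))
      rw [abs_sub_comm, ← Int.cast_sub, ← hp] at h1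
      linarith
    have f1 := hslab a le_rfl le_rfl (-lv (a + 1)) (-lv a) g le_rfl (by linarith) le_rfl
      (fun r h1 h2 => hpath r h1 (by linarith))
    have f2 := hcore (-lv a) u g le_rfl hu1 hu2 (fun r h1 h2 => hpath r (by linarith) h2)
    have hadd := P.add (-lv (a + 1)) (-lv a) u g (by linarith) hu1
    have a1 := al_le_EE (k := k) (i := a) (D := max |(g (-lv (a + 1)) : ℝ)| |(g (-lv a) : ℝ)|)
      (p := p + r) hK0 (by linarith) (max_le (by linarith) (by linarith))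
    have a2 := al_le_EE (k := k) (i := a) (D := max |(g (-lv a) : ℝ)| |(g u : ℝ)|)
      (p := p + r) hK0 (by linarith) (max_le (by linarith) (by linarith))
    unfold sp at f1 f2
    rw [← sq_abs ((g (-lv a) - g (-lv (a + 1)) : ℤ) : ℝ), ← hp, ← hN] at f1
    rw [← sq_abs ((g u - g (-lv a) : ℤ) : ℝ), ← hr, ← hN] at f2
    obtain ⟨t, ht⟩ : ∃ t : ℝ, t = (p + r) / 16 ^ a := ⟨_, rfl⟩
    rw [← ht] at a1 a2
    have ht2 : (p + r) ^ 2 / N = t ^ 2 * 4 ^ a := by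
      have h64 : (64 : ℝ) ^ a = 4 ^ a * 16 ^ a := by rw [← mul_pow]; norm_num
      have h16 : (16 : ℝ) ^ a = 4 ^ a * 4 ^ a := by rw [← mul_pow]; norm_num
      rw [ht, hN, h64, h16]
      have : (4 : ℝ) ^ a ≠ 0 := by positivity
      field_simp
    have hsc : ((-lv a - -lv (a + 1) : ℤ) : ℝ) = 63 / 2 * N := by
      push_cast; rw [hLr, hLr']; ring
    have hsc2 : ((u - -lv a : ℤ) : ℝ) ≤ N := by
      push_cast; rw [hLr]; rw [hLr] at hu2r; linarith
    have hsc3 : 0 ≤ ((u - -lv a : ℤ) : ℝ) := by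
      push_cast; linarith
    have hd : |((g (-lv (a + 1)) - g u : ℤ) : ℝ)| ≤ p + r := by
      have h1 := abs_sub_le (g (-lv (a + 1)) : ℝ) (g (-lv a)) (g u)
      rw [abs_sub_comm (g (-lv (a + 1)) : ℝ) (g (-lv a)), abs_sub_comm (g (-lv a) : ℝ) (g u),
        ← Int.cast_sub, ← Int.cast_sub, ← Int.cast_sub, ← hp, ← hr] at h1
      exact h1
    have hPpos : 0 < 63 / 2 * N + N / 1000 := by positivity
    have hQ' : r ^ 2 / (1001 / 1000 * N) ≤ r ^ 2 / (((u - -lv a : ℤ) : ℝ) + N / 1000) := by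
      refine div_le_div_of_nonneg_left (sq_nonneg _) (by positivity) (by linarith)
    have hQ2 := mul_le_mul_of_nonneg_left hQ' (show 0 ≤ sg q / 2 by linarith)
    rw [hsc] at f1
    have hEE : EE K0 k a = (K0 * (101 / 100) ^ ds k a) * 4 ^ a := by unfold EE; ring
    rw [hEE] at a1 a2
    obtain ⟨E, hE⟩ : ∃ E : ℝ, E = K0 * (101 / 100) ^ ds k a := ⟨_, rfl⟩
    have hE1 : 1 ≤ E := by
      rw [hE]; exact one_le_mul_of_one_le_of_one_le hK (one_le_b _)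
    rw [← hE] at a1 a2
    have hF : (0 : ℝ) < 4 ^ a := by positivity
    have hc := comb (c := 2) (s := sg q) (p := p) (r := r) (P := 63 / 2 * N + N / 1000)
      (Q := 1001 / 1000 * N) (T := 1001 / 1000 * ((lv (a + 1) + lv a : ℤ) : ℝ)) (N := N)
      (d := ((g (-lv (a + 1)) - g u : ℤ) : ℝ)) (F := 4 ^ a) (E := E) (t := t)
      (m1 := mu q * (63 / 2 * N)) (m2 := mu q * ((u - -lv a : ℤ) : ℝ))
      (W1 := P.W (-lv (a + 1)) (-lv a) g) (W2 := P.W (-lv a) u g) (e2 := 0)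
      hsg hPpos (by positivity) hN0
      (by push_cast; rw [hLr, hLr']; linarith only []) (by push_cast; rw [hLr, hLr']; linarith only [hN0])
      hp0 hr0 hd hF ht2 (by
        have : sg q / 2 * p ^ 2 / (63 / 2 * N + N / 1000) =
          sg q / 2 * (p ^ 2 / (63 / 2 * N + N / 1000)) := by ring
        linarith only [f1, a1, this]) (by
        have : sg q / 2 * r ^ 2 / (((u - -lv a : ℤ) : ℝ) + N / 1000) =
          sg q / 2 * (r ^ 2 / (((u - -lv a : ℤ) : ℝ) + N / 1000)) := by ring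
        linarith only [f2, hQ2, a2, this])
    rw [hadd]
    have hmu : mu q * ((u + lv (a + 1) : ℤ) : ℝ) =
        mu q * (63 / 2 * N) + mu q * ((u - -lv a : ℤ) : ℝ) := by
      push_cast; rw [hLr, hLr']; ring
    rw [hmu]
    have hfin : 10 * 2 * E * 4 ^ a + 2 ^ 2 * E ^ 2 * 4 ^ a * (17483 / sg q) ≤
        (20 + 70000 / sg q) * K0 ^ 2 * (101 / 100) ^ (2 * ds k a) * 4 ^ a := by
      have e1 : (20 + 70000 / sg q) * K0 ^ 2 * (101 / 100) ^ (2 * ds k a) * 4 ^ a =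
          20 * (E ^ 2 * 4 ^ a) + 70000 * (E ^ 2 * 4 ^ a / sg q) := by
        rw [hE, pow_mul']
        ring
      have e2 : 10 * 2 * E * 4 ^ a + 2 ^ 2 * E ^ 2 * 4 ^ a * (17483 / sg q) =
          20 * (E * 4 ^ a) + 69932 * (E ^ 2 * 4 ^ a / sg q) := by ring
      rw [e1, e2]
      have h1 : E * 4 ^ a ≤ E ^ 2 * 4 ^ a := by
        refine mul_le_mul_of_nonneg_right ?_ hF.le
        nlinarith only [hE1]
      have h2 : 0 ≤ E ^ 2 * 4 ^ a / sg q := by positivity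
      linarith only [h1, h2]
    have e3 : sg q / 2 * ((g (-lv (a + 1)) - g u : ℤ) : ℝ) ^ 2 /
        (1001 / 1000 * ((lv (a + 1) + lv a : ℤ) : ℝ)) =
        sg q / 2 * (((g (-lv (a + 1)) - g u : ℤ) : ℝ) ^ 2 /
        (1001 / 1000 * ((lv (a + 1) + lv a : ℤ) : ℝ))) := by ring
    rw [e3]
    linarith only [hc, hfin]
  | succ j haj ih =>
    intro hpath hgu hcore hslab
    have hj1 : 1 ≤ j := by omega
    have hL := lv_succ (show 1 ≤ j + 1 by omega)
    have hLr := lv_real (show 1 ≤ j + 1 by omega)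
    have hLr' := lv_real_succ (show 1 ≤ j + 1 by omega)
    have hLp := lv_pos a
    have hLp' := lv_pos (j + 1)
    have hLa := lv_mono (show a ≤ j + 1 by omega)
    have hLar : ((lv a : ℤ) : ℝ) ≤ ((lv (j + 1) : ℤ) : ℝ) := by exact_mod_cast hLa
    have hLa0 : (0 : ℝ) < ((lv a : ℤ) : ℝ) := by exact_mod_cast hLp
    obtain ⟨N, hN⟩ : ∃ N : ℝ, N = 64 ^ (j + 1) := ⟨_, rfl⟩
    have hN0 : 0 < N := by rw [hN]; positivity
    rw [← hN] at hLr hLr'
    have hIH := ih (fun r h1 h2 => hpath r (by linarith) h2) hgu hcore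
      (fun m h1 h2 => hslab m h1 (by omega))
    obtain ⟨p, hp⟩ : ∃ p : ℝ, p = |((g (-lv (j + 1)) - g (-lv (j + 1 + 1)) : ℤ) : ℝ)| := ⟨_, rfl⟩
    obtain ⟨r, hr⟩ : ∃ r : ℝ, r = |((g (-lv (j + 1)) - g u : ℤ) : ℝ)| := ⟨_, rfl⟩
    have hp0 : 0 ≤ p := by rw [hp]; exact abs_nonneg _
    have hr0 : 0 ≤ r := by rw [hr]; exact abs_nonneg _
    have h16k : (0 : ℝ) < 16 ^ k := by positivity
    have hb1 : |(g (-lv (j + 1)) : ℝ)| ≤ 8 * 16 ^ k + r := by
      have h1 := abs_sub_abs_le_abs_sub (g (-lv (j + 1)) : ℝ) (g u)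
      rw [← Int.cast_sub, ← hr] at h1
      linarith
    have hb2 : |(g (-lv (j + 1 + 1)) : ℝ)| ≤ 8 * 16 ^ k + (p + r) := by
      have h1 := abs_sub_abs_le_abs_sub (g (-lv (j + 1 + 1)) : ℝ) (g (-lv (j + 1)))
      rw [abs_sub_comm, ← Int.cast_sub, ← hp] at h1
      linarith
    have f1 := hslab (j + 1) (by omega) le_rfl (-lv (j + 1 + 1)) (-lv (j + 1)) g le_rfl
      (by linarith) le_rfl (fun r h1 h2 => hpath r h1 (by linarith))
    have hadd := P.add (-lv (j + 1 + 1)) (-lv (j + 1)) u g (by linarith) (by linarith)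
    have a1 := al_le_EE (k := k) (i := j + 1)
      (D := max |(g (-lv (j + 1 + 1)) : ℝ)| |(g (-lv (j + 1)) : ℝ)|)
      (p := p + r) hK0 (by linarith) (max_le (by linarith) (by linarith))
    unfold sp at f1
    rw [← sq_abs ((g (-lv (j + 1)) - g (-lv (j + 1 + 1)) : ℤ) : ℝ), ← hp, ← hN] at f1
    rw [← sq_abs ((g (-lv (j + 1)) - g u : ℤ) : ℝ), ← hr] at hIH
    obtain ⟨t, ht⟩ : ∃ t : ℝ, t = (p + r) / 16 ^ (j + 1) := ⟨_, rfl⟩
    rw [← ht] at a1
    have ht2 : (p + r) ^ 2 / N = t ^ 2 * 4 ^ (j + 1) := by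
      have h64 : (64 : ℝ) ^ (j + 1) = 4 ^ (j + 1) * 16 ^ (j + 1) := by rw [← mul_pow]; norm_num
      have h16 : (16 : ℝ) ^ (j + 1) = 4 ^ (j + 1) * 4 ^ (j + 1) := by rw [← mul_pow]; norm_num
      rw [ht, hN, h64, h16]
      have : (4 : ℝ) ^ (j + 1) ≠ 0 := by positivity
      field_simp
    have hsc : ((-lv (j + 1) - -lv (j + 1 + 1) : ℤ) : ℝ) = 63 / 2 * N := by
      push_cast; rw [hLr, hLr']; ring
    have hd : |((g (-lv (j + 1 + 1)) - g u : ℤ) : ℝ)| ≤ p + r := by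
      have h1 := abs_sub_le (g (-lv (j + 1 + 1)) : ℝ) (g (-lv (j + 1))) (g u)
      rw [abs_sub_comm (g (-lv (j + 1 + 1)) : ℝ) (g (-lv (j + 1))), ← Int.cast_sub,
        ← Int.cast_sub, ← Int.cast_sub, ← hp, ← hr] at h1
      exact h1
    have hPpos : 0 < 63 / 2 * N + N / 1000 := by positivity
    rw [hsc] at f1
    have hEE : EE K0 k (j + 1) = (K0 * (101 / 100) ^ ds k (j + 1)) * 4 ^ (j + 1) := by
      unfold EE; ring
    rw [hEE] at a1
    obtain ⟨E, hE⟩ : ∃ E : ℝ, E = K0 * (101 / 100) ^ ds k (j + 1) := ⟨_, rfl⟩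
    have hE1 : 1 ≤ E := by
      rw [hE]; exact one_le_mul_of_one_le_of_one_le hK (one_le_b _)
    rw [← hE] at a1
    have hF : (0 : ℝ) < 4 ^ (j + 1) := by positivity
    have hQsum : ((lv (j + 1) + lv a : ℤ) : ℝ) = N / 2 + ((lv a : ℤ) : ℝ) := by
      push_cast; rw [hLr]
    have hTsum : ((lv (j + 1 + 1) + lv a : ℤ) : ℝ) = 32 * N + ((lv a : ℤ) : ℝ) := by
      push_cast; rw [hLr']
    rw [hLr] at hLar
    obtain ⟨e2, he2⟩ : ∃ e2 : ℝ, e2 =
      (20 + 70000 / sg q) * K0 ^ 2 * (101 / 100) ^ (2 * ds k j) * 4 ^ j := ⟨_, rfl⟩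
    rw [← he2] at hIH
    have hc := comb (c := 1) (s := sg q) (p := p) (r := r) (P := 63 / 2 * N + N / 1000)
      (Q := 1001 / 1000 * ((lv (j + 1) + lv a : ℤ) : ℝ))
      (T := 1001 / 1000 * ((lv (j + 1 + 1) + lv a : ℤ) : ℝ)) (N := N)
      (d := ((g (-lv (j + 1 + 1)) - g u : ℤ) : ℝ)) (F := 4 ^ (j + 1)) (E := E) (t := t)
      (m1 := mu q * (63 / 2 * N)) (m2 := mu q * ((u + lv (j + 1) : ℤ) : ℝ))
      (W1 := P.W (-lv (j + 1 + 1)) (-lv (j + 1)) g) (W2 := P.W (-lv (j + 1)) u g) (e2 := e2)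
      hsg hPpos (by rw [hQsum]; positivity) hN0
      (by rw [hQsum, hTsum]; linarith only []) (by rw [hTsum]; linarith)
      hp0 hr0 hd hF ht2 (by
        have : sg q / 2 * p ^ 2 / (63 / 2 * N + N / 1000) =
          sg q / 2 * (p ^ 2 / (63 / 2 * N + N / 1000)) := by ring
        linarith only [f1, a1, this]) (by
        have : sg q / 2 * r ^ 2 / (1001 / 1000 * ((lv (j + 1) + lv a : ℤ) : ℝ)) =
          sg q / 2 * (r ^ 2 / (1001 / 1000 * ((lv (j + 1) + lv a : ℤ) : ℝ))) := by ring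
        linarith only [hIH, this])
    rw [hadd]
    have hmu : mu q * ((u + lv (j + 1 + 1) : ℤ) : ℝ) =
        mu q * (63 / 2 * N) + mu q * ((u + lv (j + 1) : ℤ) : ℝ) := by
      push_cast; rw [hLr, hLr']; ring
    rw [hmu]
    have hE2 : K0 * (101 / 100) ^ ds k j ≤ 101 / 100 * E := by
      have h1 : ds k j ≤ ds k (j + 1) + 1 := by unfold ds; omega
      have h2 : ((101 : ℝ) / 100) ^ ds k j ≤ (101 / 100) ^ (ds k (j + 1) + 1) :=
        pow_le_pow_right₀ (by norm_num) h1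
      rw [pow_succ] at h2
      rw [hE]
      nlinarith only [mul_le_mul_of_nonneg_left h2 hK0, h2, hK0]
    have he2' : e2 ≤ (20 + 70000 / sg q) * (10201 / 40000) * (E ^ 2 * 4 ^ (j + 1)) := by
      have e1 : e2 = (20 + 70000 / sg q) * ((K0 * (101 / 100) ^ ds k j) ^ 2 * 4 ^ j) := by
        rw [he2, pow_mul']; ring
      have h0 : 0 ≤ K0 * (101 / 100) ^ ds k j := by positivity
      have h1 : (K0 * (101 / 100) ^ ds k j) ^ 2 ≤ (101 / 100 * E) ^ 2 :=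
        pow_le_pow_left₀ h0 hE2 2
      have h2 : (K0 * (101 / 100) ^ ds k j) ^ 2 * 4 ^ j ≤ (101 / 100 * E) ^ 2 * 4 ^ j :=
        mul_le_mul_of_nonneg_right h1 (by positivity)
      have h3 := mul_le_mul_of_nonneg_left h2 (show 0 ≤ 20 + 70000 / sg q by positivity)
      rw [e1]
      refine h3.trans (le_of_eq ?_)
      rw [pow_succ]
      ring
    have hfin : 10 * 1 * E * 4 ^ (j + 1) + 1 ^ 2 * E ^ 2 * 4 ^ (j + 1) * (17483 / sg q) + e2 ≤
        (20 + 70000 / sg q) * K0 ^ 2 * (101 / 100) ^ (2 * ds k (j + 1)) * 4 ^ (j + 1) := by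
      have e1 : (20 + 70000 / sg q) * K0 ^ 2 * (101 / 100) ^ (2 * ds k (j + 1)) * 4 ^ (j + 1) =
          20 * (E ^ 2 * 4 ^ (j + 1)) + 70000 * (E ^ 2 * 4 ^ (j + 1) / sg q) := by
        rw [hE, pow_mul']
        ring
      have e2' : 10 * 1 * E * 4 ^ (j + 1) + 1 ^ 2 * E ^ 2 * 4 ^ (j + 1) * (17483 / sg q) =
          10 * (E * 4 ^ (j + 1)) + 17483 * (E ^ 2 * 4 ^ (j + 1) / sg q) := by ring
      have e3 : (20 + 70000 / sg q) * (10201 / 40000) * (E ^ 2 * 4 ^ (j + 1)) =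
          10201 / 2000 * (E ^ 2 * 4 ^ (j + 1)) +
            17851.75 * (E ^ 2 * 4 ^ (j + 1) / sg q) := by ring
      rw [e3] at he2'
      rw [e1, e2']
      have h1 : E * 4 ^ (j + 1) ≤ E ^ 2 * 4 ^ (j + 1) := by
        refine mul_le_mul_of_nonneg_right ?_ hF.le
        nlinarith only [hE1]
      have h2 : 0 ≤ E ^ 2 * 4 ^ (j + 1) / sg q := by positivity
      have h3 : 0 ≤ E ^ 2 * 4 ^ (j + 1) := by positivity
      linarith only [he2', h1, h2, h3]
    have e3 : sg q / 2 * ((g (-lv (j + 1 + 1)) - g u : ℤ) : ℝ) ^ 2 /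
        (1001 / 1000 * ((lv (j + 1 + 1) + lv a : ℤ) : ℝ)) =
        sg q / 2 * (((g (-lv (j + 1 + 1)) - g u : ℤ) : ℝ) ^ 2 /
        (1001 / 1000 * ((lv (j + 1 + 1) + lv a : ℤ) : ℝ))) := by ring
    rw [e3]
    linarith only [hc, hfin]

end Pool.Agent.H4.ND
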